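import Pool.Agent.Lib_helper27.R.NameB
import Pool.Agent.Lib_helper27.Q.CohP

/-!
# Names of finite sequences of zeros and ones
-/

set_option linter.unusedSectionVars false
set_option linter.unusedVariables false

namespace Pool.Agent.Lib_helper27.R

open Fml V Q Cardinal

section

variable {P : Type} [Preorder P]

/-- application as membership -/
theorem app_iff {f x y : Name P} {p : P} : Fc p (app f x y) ↔ fmem (mkOPair x y) f p := by
  constructor
  · intro h
    refine fmem_dense ((forces_bex.1 h).imp ?_)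
    rintro r _ ⟨z, hz, hz'⟩
    exact fmem_congr_left (fc_opair_iff.1 hz') hz
  · intro h
    exact forces_bex.2 (Loc.pure fun r hr => ⟨_, fmem_mono hr h, fc_opair_iff.2 (feq_refl _ _)⟩)

theorem fc_isTriple {z s t u : Name P} {p : P} :
    Fc p (isTriple z s t u) ↔ feq z (mkOPair (mkOPair s t) u) p := by
  constructor
  · intro h
    refine feq_dense ((forces_ex.1 h).imp ?_)
    rintro r _ ⟨y, h1, h2⟩
    exact feq_trans (fc_opair_iff.1 h2) (feq_opair_congr (fc_opair_iff.1 h1) (feq_refl _ _))
  · intro h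
    exact forces_ex.2 (Loc.pure fun r hr => ⟨mkOPair s t, fc_opair_iff.2 (feq_refl _ _),
      fc_opair_iff.2 (feq_mono hr h)⟩)

/-- the graph of a string -/
def gr (t : List Bool) : Set (ℕ × Bool) := {x | t[x.1]? = some x.2}

theorem gr_sub {s t : List Bool} : gr s ⊆ gr t ↔ s <+: t := by
  constructor
  · intro h
    rw [List.prefix_iff_getElem?]
    intro i hi
    have h1 : ((i, s[i]) : ℕ × Bool) ∈ gr s := by
      show s[i]? = some s[i]
      exact List.getElem?_eq_getElem hi
    exact h h1
  · rintro h ⟨i, b⟩ hb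
    have hb' : s[i]? = some b := hb
    obtain ⟨hi, hb2⟩ := List.getElem?_eq_some_iff.1 hb'
    have := (List.prefix_iff_getElem?.1 h) i hi
    show t[i]? = some b
    rw [this, hb2]

theorem prefix_antisymm {s t : List Bool} (h : s <+: t) (h' : t <+: s) : s = t :=
  h.eq_of_length (le_antisymm h.length_le h'.length_le)

variable (P) in
/-- the name of a string -/
noncomputable def strN (t : List Bool) : Name P := snm P (gr t)

variable (P) in
/-- the name of `2` -/
noncomputable def twoN : Name P := mkPair (bnm P false) (bnm P true)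

theorem strN_sub {s t : List Bool} {p : P} :
    Fc p (isSubset (strN P s) (strN P t)) ↔ s <+: t := snm_sub.trans gr_sub

theorem sub_of_feq {x y : Name P} {p : P} (h : feq x y p) : Fc p (isSubset x y) :=
  (forces_ball nf_basic).2 fun z q hq hz => fmem_congr_right (feq_mono hq h) hz

theorem strN_inj {s t : List Bool} {p : P} (h : feq (strN P s) (strN P t) p) : s = t :=
  prefix_antisymm (strN_sub.1 (sub_of_feq h)) (strN_sub.1 (sub_of_feq (feq_symm h)))

theorem strN_func (t : List Bool) (p : P) :
    Fc p (isFunc (strN P t) (onm P t.length) (twoN P)) := by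
  have hQ : Down (P := P) (fun (_ : {x // x ∈ gr t}) _ => True) := down_true
  refine fc_isFunc (ι := {x // x ∈ gr t}) (d := fun x => onm P x.1.1)
    (v := fun x => bnm P x.1.2) hQ ?_ ?_ ?_
  · rintro ⟨⟨i, b⟩, hx⟩ r _ _
    have hx' : t[i]? = some b := hx
    obtain ⟨hi, _⟩ := List.getElem?_eq_some_iff.1 hx'
    exact ⟨onm_mem hi r, fmem_two.2 (Loc.pure fun _ _ => ⟨b, feq_refl _ _⟩)⟩
  · intro x q hq hx
    refine (fmem_onm.1 hx).imp ?_
    rintro r _ ⟨i, hi, he⟩
    exact ⟨⟨(i, t[i]), List.getElem?_eq_getElem hi⟩, trivial, he⟩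
  · rintro ⟨⟨i, b⟩, hx⟩ ⟨⟨j, b'⟩, hx'⟩ r _ _ _ h
    have h1 : t[i]? = some b := hx
    have h2 : t[j]? = some b' := hx'
    obtain rfl := onm_inj h
    rw [h1] at h2
    obtain rfl := Option.some.inj h2
    exact feq_refl _ _

theorem app_strN {t : List Bool} {i : ℕ} {b : Bool} (h : t[i]? = some b) (p : P) :
    Fc p (app (strN P t) (onm P i) (bnm P b)) :=
  app_iff.2 (fmem_snm (x := (i, b)).2 h)

/-- functions from a natural number to `2` are strings -/
theorem func_str {f : Name P} {L : ℕ} {p : P} (h : Fc p (isFunc f (onm P L) (twoN P))) :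
    Loc p fun r => ∃ t : List Bool, t.length = L ∧ feq f (strN P t) r := by
  have key : ∀ n ≤ L, Loc p fun r => ∃ t : List Bool, t.length = n ∧
      ∀ (i : ℕ) (b : Bool), t[i]? = some b → Fc r (app f (onm P i) (bnm P b)) := by
    intro n
    induction n with
    | zero =>
      intro _
      exact Loc.pure fun r _ => ⟨[], rfl, fun i b h => by simp at h⟩
    | succ n ih =>
      intro hn
      refine (ih (by omega)).bind ?_
      rintro r hr ⟨t, ht, ht'⟩
      refine (V.func_total (Forces.mono nf_basic hr h) (onm_mem (show n < L by omega) r)).bind ?_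
      rintro s hs ⟨y, hy, hy'⟩
      refine (fmem_two.1 hy).imp ?_
      rintro w hw ⟨b, hb⟩
      refine ⟨t ++ [b], by simp [ht], fun i b' hi => ?_⟩
      rcases lt_or_ge i t.length with hlt | hge
      · rw [List.getElem?_append_left hlt] at hi
        exact Forces.mono nf_basic (hw.trans hs) (ht' i b' hi)
      · rw [List.getElem?_append_right hge] at hi
        have hi0 : i = t.length := by
          by_contra hcon
          have : ([b] : List Bool)[i - t.length]? = none := by
            rw [List.getElem?_eq_none_iff]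
            simp
            omega
          rw [this] at hi
          cases hi
        subst hi0
        simp only [Nat.sub_self, List.getElem?_cons_zero, Option.some.injEq] at hi
        subst hi
        rw [ht]
        exact app_congr' (feq_refl _ _) hb (Forces.mono nf_basic hw hy')
  refine (key L le_rfl).imp ?_
  rintro r hr ⟨t, ht, ht'⟩
  refine ⟨t, ht, feq_ext fun z q hq => ?_⟩
  have hf := Forces.mono nf_basic (hq.trans hr) h
  constructor
  · intro hz
    refine fmem_dense ?_
    refine (forces_bex.1 ((forces_ball nf_basic).1 hf.1 z q le_rfl hz)).bind ?_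
    rintro s hs ⟨x, hx, h1⟩
    refine (forces_bex.1 h1).bind ?_
    rintro u hu ⟨y, hy, h2⟩
    refine ((fmem_onm.1 hx).mono hu).bind ?_
    rintro v hv ⟨i, hi, he⟩
    refine ((fmem_two.1 hy).mono hv).imp ?_
    rintro w hw ⟨b, hb⟩
    have hzo := Forces.mono nf_basic (hw.trans hv) h2
    have h3 : feq z (mkOPair (onm P i) (bnm P b)) w := feq_trans (fc_opair_iff.1 hzo)
      (feq_opair_congr (feq_mono hw he) hb)
    have hwq : w ≤ q := hw.trans (hv.trans (hu.trans hs))
    have h4 : Fc w (app f (onm P i) (bnm P b)) := app_iff.2 (fmem_congr_left h3 (fmem_mono hwq hz))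
    have hi' : i < t.length := ht ▸ hi
    have h5 := Forces.mono nf_basic (hwq.trans hq) (ht' i t[i] (List.getElem?_eq_getElem hi'))
    have h6 := bnm_inj (V.func_single (Forces.mono nf_basic hwq hf) h4 h5)
    refine fmem_congr_left (feq_symm h3) (fmem_snm (x := (i, b)).2 ?_)
    show t[i]? = some b
    rw [h6]
    exact List.getElem?_eq_getElem hi'
  · intro hz
    refine fmem_dense ((fmem_snm'.1 hz).imp ?_)
    rintro s hs ⟨⟨i, b⟩, hx, he⟩
    have h1 : Fc s (app f (onm P i) (bnm P b)) := Forces.mono nf_basic (hs.trans hq) (ht' i b hx)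
    exact fmem_congr_left (feq_symm he) (app_iff.1 h1)

theorem isFunc_congr {f a b f' a' b' : Name P} {p : P} (hf : feq f f' p) (ha : feq a a' p)
    (hb : feq b b' p) (h : Fc p (isFunc f a b)) : Fc p (isFunc f' a' b') :=
  (fc_congr (Fml.Rel.isFunc (fun x => feq_refl x p) hf ha hb) le_rfl).1 h

theorem isSubset_congr {f a f' a' : Name P} {p : P} (hf : feq f f' p) (ha : feq a a' p)
    (h : Fc p (isSubset f a)) : Fc p (isSubset f' a') :=
  (fc_congr (Fml.Rel.isSubset (fun x => feq_refl x p) hf ha) le_rfl).1 h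

theorem isInj_congr {f a b f' a' b' : Name P} {p : P} (hf : feq f f' p) (ha : feq a a' p)
    (hb : feq b b' p) (h : Fc p (isInj f a b)) : Fc p (isInj f' a' b') :=
  (fc_congr (Fml.Rel.isInj (fun x => feq_refl x p) hf ha hb) le_rfl).1 h

/-- `f` is a function from an element of `ω` to `2` -/
def isStr (W N f : Name P) : Fml (Name P) := bex W fun l => isFunc f l N

theorem fc_isStr {f : Name P} {p : P} : Fc p (isStr (oall P ℕ) (twoN P) f) ↔
    Loc p fun r => ∃ t, feq f (strN P t) r := by
  unfold isStr
  rw [Fc, forces_bex]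
  constructor
  · intro h
    refine h.bind ?_
    rintro r hr ⟨l, hl, h1⟩
    refine (fmem_oall.1 hl).bind ?_
    rintro s hs ⟨L, hL⟩
    refine (func_str (isFunc_congr (feq_refl f s) hL (feq_refl _ s)
      (Forces.mono nf_basic hs h1))).imp ?_
    rintro u _ ⟨t, _, ht⟩
    exact ⟨t, ht⟩
  · intro h
    refine h.imp ?_
    rintro r hr ⟨t, ht⟩
    exact ⟨onm P t.length, onm_mem_oall _ r, isFunc_congr (feq_symm ht) (feq_refl _ r)
      (feq_refl _ r) (strN_func t r)⟩

variable (P) in
/-- the name of the set of the strings of length `L` -/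
noncomputable def powN (L : ℕ) : Name P :=
  mkAll {t : List Bool // t.length = L} fun t => strN P t.1

theorem fmem_powN {L : ℕ} {z : Name P} {p : P} : fmem z (powN P L) p ↔
    Loc p fun r => ∃ t : List Bool, t.length = L ∧ feq z (strN P t) r := by
  rw [powN, fmem_mkAll]
  simp only [Subtype.exists, exists_prop]

theorem fmem_powN' {L : ℕ} {z : Name P} {p : P} : fmem z (powN P L) p ↔
    Fc p (isFunc z (onm P L) (twoN P)) := by
  constructor
  · intro h
    refine Forces.dense nf_basic ((fmem_powN.1 h).imp ?_)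
    rintro r _ ⟨t, rfl, ht⟩
    exact isFunc_congr (feq_symm ht) (feq_refl _ r) (feq_refl _ r) (strN_func t r)
  · intro h
    exact fmem_powN.2 (func_str h)

theorem fc_isPow {L : ℕ} {X : Name P} {p : P} :
    Fc p (isPow (onm P L) (twoN P) X) ↔ feq X (powN P L) p := by
  constructor
  · intro h
    refine feq_ext fun z q hq => ?_
    rw [fmem_powN']
    exact (forces_iff nf_basic).1 (h z) q hq
  · intro h z
    refine (forces_iff nf_basic).2 fun q hq => ?_
    have h1 : fmem z X q ↔ fmem z (powN P L) q :=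
      ⟨fmem_congr_right (feq_mono hq h), fmem_congr_right (feq_symm (feq_mono hq h))⟩
    exact h1.trans fmem_powN'

/-- the index set for the counting -/
abbrev Cx (L k : ℕ) : Type := {z : List Bool × List Bool × List Bool //
  z.2.1.length = L ∧ z.1 <+: z.2.1 ∧ z.2.2.length = k}

variable (P) in
/-- the name of a triple of strings -/
noncomputable def tripN (z : List Bool × List Bool × List Bool) : Name P :=
  mkOPair (mkOPair (strN P z.1) (strN P z.2.1)) (strN P z.2.2)

theorem tripN_inj {z z' : List Bool × List Bool × List Bool} {p : P}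
    (h : feq (tripN P z) (tripN P z') p) : z = z' := by
  obtain ⟨h1, h2⟩ := opair_inj h
  obtain ⟨h3, h4⟩ := opair_inj h1
  exact Prod.ext (strN_inj h3) (Prod.ext (strN_inj h4) (strN_inj h2))

/-- the name of the set which has to be counted -/
noncomputable def cntN (S : Name P) (L k : ℕ) : Name P :=
  mkQ (Cx L k) (fun z => tripN P z.1) fun z r => fmem (strN P z.1.1) S r

theorem down_cnt (S : Name P) (L k : ℕ) :
    Down (P := P) (fun (z : Cx L k) r => fmem (strN P z.1.1) S r) :=
  fun _ _ _ hq h => fmem_mono hq h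

theorem fmem_cntN {S : Name P} {L k : ℕ} {z : Name P} {p : P} : fmem z (cntN S L k) p ↔
    Loc p fun r => ∃ w : Cx L k, fmem (strN P w.1.1) S r ∧ feq z (tripN P w.1) r :=
  fmem_mkQ (down_cnt S L k)

theorem count_iff {S E X : Name P} {L k : ℕ} {p : P} (hE : feq E (powN P L) p)
    (hX : feq X (powN P k) p) (hS : Fc p (ball S fun s => isStr (oall P ℕ) (twoN P) s))
    {z : Name P} : Fc p (bex S fun s => bex E fun t => bex X fun u =>
      and (isSubset s t) (isTriple z s t u)) ↔ fmem z (cntN S L k) p := by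
  rw [fmem_cntN]
  constructor
  · intro h
    refine (forces_bex.1 h).bind ?_
    rintro q1 hq1 ⟨s, hs, h1⟩
    refine (forces_bex.1 h1).bind ?_
    rintro q2 hq2 ⟨t, ht, h2⟩
    refine (forces_bex.1 h2).bind ?_
    rintro q3 hq3 ⟨u, hu, h3, h4⟩
    refine ((fc_isStr.1 ((forces_ball nf_basic).1 hS s q1 hq1 hs)).mono (hq3.trans hq2)).bind ?_
    rintro q4 hq4 ⟨s', hs'⟩
    refine ((fmem_powN.1 (fmem_congr_right (feq_mono (hq2.trans hq1) hE) ht)).mono
      (hq4.trans hq3)).bind ?_
    rintro q5 hq5 ⟨t', ht', htt'⟩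
    refine ((fmem_powN.1 (fmem_congr_right (feq_mono (hq3.trans (hq2.trans hq1)) hX) hu)).mono
      (hq5.trans hq4)).imp ?_
    rintro q6 hq6 ⟨u', hu', huu'⟩
    have e1 : feq s (strN P s') q6 := feq_mono (hq6.trans hq5) hs'
    have e2 : feq t (strN P t') q6 := feq_mono hq6 htt'
    have h63 : q6 ≤ q3 := hq6.trans (hq5.trans hq4)
    refine ⟨⟨(s', t', u'), ht', ?_, hu'⟩, ?_, ?_⟩
    · exact strN_sub.1 (isSubset_congr e1 e2 (Forces.mono nf_basic h63 h3))
    · exact fmem_congr_left e1 (fmem_mono (h63.trans (hq3.trans hq2)) hs)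
    · exact feq_trans (fc_isTriple.1 (Forces.mono nf_basic h63 h4))
        (feq_opair_congr (feq_opair_congr e1 e2) huu')
  · intro h
    refine forces_bex.2 (h.imp ?_)
    rintro r hr ⟨⟨⟨s, t, u⟩, ht, hst, hu⟩, h1, h2⟩
    refine ⟨strN P s, h1, forces_bex.2 (Loc.pure fun r1 hr1 => ⟨strN P t, ?_, ?_⟩)⟩
    · exact fmem_congr_right (feq_symm (feq_mono (hr1.trans hr) hE))
        (fmem_powN.2 (Loc.pure fun _ _ => ⟨t, ht, feq_refl _ _⟩))
    · refine forces_bex.2 (Loc.pure fun r2 hr2 => ⟨strN P u, ?_, strN_sub.2 hst, ?_⟩)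
      · exact fmem_congr_right (feq_symm (feq_mono (hr2.trans (hr1.trans hr)) hX))
          (fmem_powN.2 (Loc.pure fun _ _ => ⟨u, hu, feq_refl _ _⟩))
      · exact fc_isTriple.2 (feq_mono (hr2.trans hr1) h2)

theorem fc_isCount {S E X D : Name P} {L k : ℕ} {p : P} (hE : feq E (powN P L) p)
    (hX : feq X (powN P k) p) (hS : Fc p (ball S fun s => isStr (oall P ℕ) (twoN P) s)) :
    Fc p (isCount S E X D) ↔ feq D (cntN S L k) p := by
  constructor
  · intro h
    refine feq_ext fun z q hq => ?_
    rw [← count_iff (feq_mono hq hE) (feq_mono hq hX) (Forces.mono nf_basic hq hS)]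
    exact (forces_iff nf_basic).1 (h z) q hq
  · intro h z
    refine (forces_iff nf_basic).2 fun q hq => ?_
    have h1 : fmem z D q ↔ fmem z (cntN S L k) q :=
      ⟨fmem_congr_right (feq_mono hq h), fmem_congr_right (feq_symm (feq_mono hq h))⟩
    exact h1.trans (count_iff (feq_mono hq hE) (feq_mono hq hX)
      (Forces.mono nf_basic hq hS)).symm

/-- cardinal inequalities from forced injections -/
theorem inj_card {ι κ : Type} [Fintype ι] [Fintype κ] {f A B : Name P} {p : P}
    (hf : Fc p (isInj f A B)) (a : ι → Name P) (b : κ → Name P) (ha : ∀ i, fmem (a i) A p)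
    (hb : ∀ y q, q ≤ p → fmem y B q → Loc q fun r => ∃ j, feq y (b j) r)
    (hab : ∀ i j r, r ≤ p → feq (a i) (a j) r → i = j) : Fintype.card ι ≤ Fintype.card κ := by
  classical
  have key : ∀ Z : Finset ι, ∃ r, r ≤ p ∧ ∃ φ : ι → Option κ, ∀ i ∈ Z, ∃ j, φ i = some j ∧
      Fc r (app f (a i) (b j)) := by
    intro Z
    induction Z using Finset.induction_on with
    | empty => exact ⟨p, le_rfl, fun _ => none, fun i hi => absurd hi (Finset.notMem_empty i)⟩
    | insert i Z _ ih =>
      obtain ⟨r, hr, φ, hφ⟩ := ih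
      obtain ⟨s, hs, y, hy, hy'⟩ := (V.func_total (Forces.mono nf_basic hr hf).1
        (fmem_mono hr (ha i))).exists
      obtain ⟨t, ht, j, hj⟩ := (hb y s (hs.trans hr) hy).exists
      refine ⟨t, ht.trans (hs.trans hr), Function.update φ i (some j), fun i' hi' => ?_⟩
      by_cases h : i' = i
      · subst h
        refine ⟨j, Function.update_self _ _ _, ?_⟩
        exact app_congr' (feq_refl _ _) hj (Forces.mono nf_basic ht hy')
      · obtain ⟨j', h1, h2⟩ := hφ i' ((Finset.mem_insert.1 hi').resolve_left h)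
        refine ⟨j', ?_, Forces.mono nf_basic (ht.trans hs) h2⟩
        rw [Function.update_of_ne h, h1]
  obtain ⟨r, hr, φ, hφ⟩ := key Finset.univ
  choose g hg hg' using fun i => hφ i (Finset.mem_univ i)
  refine Fintype.card_le_of_injective g fun i j hij => ?_
  have h1 := hg' i
  rw [hij] at h1
  exact hab i j r hr (V.inj_single (Forces.mono nf_basic hr hf) h1 (hg' j))

end

end Pool.Agent.Lib_helper27.R
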