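import Pool.Agent.Lib_helper72.RB.B1
import Pool.Agent.Lib_helper72.RB.B4b
import Pool.Agent.Lib_helper44.RB.B2
import Pool.Agent.Lib_helper44.RB.B3

/-!
# Combinatorial blocks
-/

namespace Pool.Agent.Lib_helper27.R

/-- B2: two places per class in each block (the block `l` has `2 l ≥ 2 m` elements) -/
theorem exists_sigma (m k k' : ℕ) (hm : m ≤ k) {ι : Type} (I : Finset ι) (f : ι → ℕ → ℕ → ℕ)
    (π : ℕ → List ℕ → ℕ) (h : ∀ i ∈ I, ∀ j < m, OneErr (π j) (f i j)) :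
    ∃ s : List ℕ →₀ ℕ, (∀ t, s t ≠ 0 → bl k ≤ t.length ∧ t.length < bl k') ∧
      ∀ i ∈ I, ∀ j < m, ∀ l, k ≤ l → l < k' →
        ∃ n, bl l ≤ n ∧ n < bl (l + 1) ∧ s (hist (f i j) n) = f i j n + 1 :=
  exists_sigma_pr m k k' hm I f π h

/-- B3: the Δ-system lemma -/
theorem delta_system {α ι : Type} [DecidableEq α] (A : ι → Finset α) (X : Set ι)
    (hX : ¬ X.Countable) : ∃ Y ⊆ X, ¬ Y.Countable ∧ ∃ r : Finset α, (∀ i ∈ Y, r ⊆ A i) ∧
      ∀ i ∈ Y, ∀ j ∈ Y, i ≠ j → A i ∩ A j = r := delta_system_pr A X hX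

end Pool.Agent.Lib_helper27.R
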