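import Pool.Agent.Lib_helper27.R.Merge
import Pool.Agent.Lib_helper27.Q.Uni
import Pool.Agent.Lib_helper27.Q.Comb
import Pool.Agent.Lib_helper27.V.Chk

/-!
# The poset is ccc
-/

set_option linter.unusedSectionVars false
set_option linter.unusedVariables false

namespace Pool.Agent.Lib_helper27.R

open Fml V Cardinal

theorem exists_fiber {ι β : Type} [Countable β] (φ : ι → β) {Y : Set ι} (hY : ¬ Y.Countable) :
    ∃ b, ¬ {i ∈ Y | φ i = b}.Countable := by
  by_contra hcon
  push Not at hcon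
  refine hY ((Set.countable_iUnion hcon).mono fun i hi => ?_)
  exact Set.mem_iUnion.2 ⟨φ i, hi, rfl⟩

section

variable {Lm Om Lab : Type} [LinearOrder Om] [WellFoundedLT Om]

/-- uniformization of an uncountable family -/
theorem uniformize {ι : Type} (p : ι → Cnd Lm Om Lab) (X : Set ι) (hX : ¬ X.Countable) :
    ∃ Y ⊆ X, ¬ Y.Countable ∧ ∃ (D : Finset Om) (m : ℕ), ∀ I : Finset ι, (∀ i ∈ I, i ∈ Y) →
      Fam p I D m := by
  classical
  let A : ι → Finset ((Lm × ℕ) ⊕ Om) := fun i => (p i).c.support.disjSum (p i).a.support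
  obtain ⟨Y₁, hY₁, hY₁c, r, hr, hr'⟩ := delta_system A X hX
  let φ : ι → (r → ℕ × ℕ × (List ℕ →₀ ℕ)) := fun i z => match z.1 with
    | Sum.inl x => ((p i).c x, 0, 0)
    | Sum.inr ζ => (0, ((p i).a ζ).k, ((p i).a ζ).s)
  obtain ⟨b, hb⟩ := exists_fiber φ hY₁c
  let m : ℕ := ∑ z : r, (b z).2.1
  refine ⟨{i ∈ Y₁ | φ i = b}, fun i hi => hY₁ hi.1, hb,
    r.preimage Sum.inr (Sum.inr_injective.injOn), m, fun I hI => ?_⟩
  have hφ : ∀ i ∈ I, ∀ j ∈ I, φ i = φ j := fun i hi j hj => (hI i hi).2.trans (hI j hj).2.symm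
  have hinl : ∀ i ∈ I, ∀ x, Sum.inl x ∈ A i ↔ (p i).c x ≠ 0 := by
    intro i _ x
    simp [A]
  have hinr : ∀ i ∈ I, ∀ x, Sum.inr x ∈ A i ↔ (p i).a x ≠ 0 := by
    intro i _ x
    simp [A]
  constructor
  · intro i hi j hj x h1 h2
    by_cases hij : i = j
    · rw [hij]
    · have hx : Sum.inl x ∈ r := by
        rw [← hr' i (hI i hi).1 j (hI j hj).1 hij, Finset.mem_inter, hinl i hi, hinl j hj]
        exact ⟨h1, h2⟩
      have h3 := congrFun (hφ i hi j hj) ⟨Sum.inl x, hx⟩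
      exact congrArg Prod.fst h3
  · intro i hi j hj hij ζ hζ
    by_contra hcon
    push Not at hcon
    refine hζ (Finset.mem_preimage.2 ?_)
    rw [← hr' i (hI i hi).1 j (hI j hj).1 hij, Finset.mem_inter, hinr i hi, hinr j hj]
    exact hcon
  · intro i hi j hj ζ hζ
    have h3 := congrFun (hφ i hi j hj) ⟨Sum.inr ζ, Finset.mem_preimage.1 hζ⟩
    exact congrArg (fun z => z.2.1) h3
  · intro i hi j hj ζ hζ
    have h3 := congrFun (hφ i hi j hj) ⟨Sum.inr ζ, Finset.mem_preimage.1 hζ⟩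
    exact congrArg (fun z => z.2.2) h3
  · intro i hi ζ hζ
    have h3 := congrFun (hI i hi).2 ⟨Sum.inr ζ, Finset.mem_preimage.1 hζ⟩
    have h4 : ((p i).a ζ).k = (b ⟨Sum.inr ζ, Finset.mem_preimage.1 hζ⟩).2.1 :=
      congrArg (fun z => z.2.1) h3
    rw [h4]
    exact Finset.single_le_sum (f := fun z : r => (b z).2.1) (fun _ _ => Nat.zero_le _)
      (Finset.mem_univ _)

/-- the conditions with the order given by `E` -/
def Pc (E : Nms Lm Om Lab) : Type := Cnd Lm Om Lab

instance (E : Nms Lm Om Lab) : Preorder (Pc E) where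
  le q p := LE E ⊤ q p
  le_refl p := LE.refl _ _
  le_trans r q p h h' := LE.trans h h'

theorem pc_le {E : Nms Lm Om Lab} {q p : Pc E} : q ≤ p ↔ LE E ⊤ q p := Iff.rfl

instance (E : Nms Lm Om Lab) : Nonempty (Pc E) := ⟨(zc : Cnd Lm Om Lab)⟩

end

/-- every uncountable family has two compatible members -/
def CCC (P : Type) [Preorder P] : Prop := ∀ {ι : Type} (p : ι → P) (X : Set ι), ¬ X.Countable →
  ∃ i ∈ X, ∃ j ∈ X, i ≠ j ∧ ∃ r, r ≤ p i ∧ r ≤ p j

theorem ccc_pc {Lm Om Lab : Type} [LinearOrder Om] [WellFoundedLT Om] [Nonempty Lab]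
    (E : Nms Lm Om Lab) : CCC (Pc E) := by
  classical
  intro ι p X hX
  obtain ⟨Y, hYX, hY, D, m, hF⟩ := uniformize (Lm := Lm) (Om := Om) (Lab := Lab) p X hX
  obtain ⟨R, hR⟩ := merge (Lm := Lm) (Om := Om) (Lab := Lab) (E := E) m D.card 2
  have hYinf : Y.Infinite := fun h => hY h.countable
  obtain ⟨I, hI, hIc⟩ := hYinf.exists_subset_card_eq R
  obtain ⟨J, hJ, hJ2, q, hq⟩ := hR p I D rfl hIc.ge (hF I fun i hi => hI hi)
  obtain ⟨i, hi, j, hj, hij⟩ := Finset.one_lt_card.1 (Nat.lt_of_succ_le hJ2)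
  exact ⟨i, hYX (hI (hJ hi)), j, hYX (hI (hJ hj)), hij, q, hq i hi, hq j hj⟩

section

variable {P : Type} [Preorder P]

theorem CCC.antichain (h : CCC P) {A : Set P} (hA : ∀ a ∈ A, ∀ b ∈ A, Cpt a b → a = b) :
    A.Countable := by
  by_contra hcon
  obtain ⟨i, hi, j, hj, hij, hc⟩ := h (ι := P) id A hcon
  exact hij (hA i hi j hj hc)

open Q in
/-- `ω₁` is preserved -/
theorem hart_ccc (h : CCC P) (p : P) : Fc p (isHartogs (oall P ℕ) (oall P Om1)) := by
  classical
  refine ⟨oall_ord p, ?_, ?_⟩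
  · intro q hq hex
    obtain ⟨q', hq', f, hf⟩ := (forces_ex.1 hex).exists
    have key : ∀ x : Om1, ∃ r ≤ q', ∃ n : ℕ, Fc r (app f (onm P x) (onm P n)) := by
      intro x
      obtain ⟨s, hs, y, hy, hy'⟩ := (func_total hf.1 (onm_mem_oall x q')).exists
      obtain ⟨t, ht, i, hi⟩ := (fmem_oall.1 hy).exists
      exact ⟨t, ht.trans hs, i, app_congr' (feq_refl _ _) hi (Forces.mono nf_basic ht hy')⟩
    choose r hr n hn using key
    have hunc : ¬ (Set.univ : Set Om1).Countable := by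
      rw [← le_aleph0_iff_set_countable, mk_univ, mk_om1]
      simp
    obtain ⟨k, hk⟩ := exists_fiber n hunc
    obtain ⟨x, hx, y, hy, hxy, s, hs1, hs2⟩ := h r _ hk
    have h1 := Forces.mono nf_basic hs1 (hn x)
    have h2 := Forces.mono nf_basic hs2 (hn y)
    rw [hx.2] at h1
    rw [hy.2] at h2
    exact hxy (onm_inj (inj_single (Forces.mono nf_basic (hs1.trans (hr x)) hf) h1 h2))
  · refine (forces_ball nf_basic).2 fun c q hq hc => ?_
    refine forces_ex.2 ?_
    refine (fmem_oall.1 hc).imp ?_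
    rintro r hr ⟨x, hx⟩
    obtain ⟨e, he⟩ : ∃ e : {y : Om1 // y < x} → ℕ, Function.Injective e := by
      have h := mk_Iio_lt (α := Om1) x (by simp)
      rw [mk_om1] at h
      have h1 : (aleph 1 : Cardinal.{0}) = Order.succ ℵ₀ := by simp
      have h2 : #{y : Om1 // y < x} ≤ #ℕ := by
        rw [mk_nat]
        exact Order.lt_succ_iff.1 (h.trans_eq h1)
      rw [Cardinal.le_def] at h2
      obtain ⟨e⟩ := h2
      exact ⟨e, e.injective⟩
    have hQ : Down (P := P) (fun (_ : {y : Om1 // y < x}) _ => True) := down_true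
    have hfun : Fc r (isFunc (mkFn {y : Om1 // y < x} (fun y => onm P y.1) (fun y => onm P (e y))
        fun _ _ => True) (onm P x) (oall P ℕ)) := by
      refine fc_isFunc hQ ?_ ?_ ?_
      · intro y s _ _
        exact ⟨onm_mem y.2 s, onm_mem_oall _ s⟩
      · intro z s hs hz
        refine (fmem_onm.1 hz).imp ?_
        rintro t _ ⟨y, hy, he'⟩
        exact ⟨⟨y, hy⟩, trivial, he'⟩
      · intro y y' s _ _ _ h
        rw [Subtype.ext (onm_inj h)]
        exact feq_refl _ _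
    refine ⟨mkFn {y : Om1 // y < x} (fun y => onm P y.1) (fun y => onm P (e y))
        fun _ _ => True, ?_⟩
    have hinj := fc_isInj hQ hfun (by
      intro y y' s _ _ _ h
      rw [he (onm_inj h)]
      exact feq_refl _ _)
    exact (fc_uni (cv (Fml.isInj 0 1 2) 3) 3
      (l := [mkFn {y : Om1 // y < x} (fun y => onm P y.1) (fun y => onm P (e y))
        fun _ _ => True, onm P x])
      (l' := [mkFn {y : Om1 // y < x} (fun y => onm P y.1) (fun y => onm P (e y))
        fun _ _ => True, c])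
      (.cons (feq_refl _ _) (.cons (feq_symm hx) .nil)) (feq_refl (oall P ℕ) r) le_rfl).1 hinj

end

end Pool.Agent.Lib_helper27.R
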