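import Mathlib

/-!
# Elementary definitions
-/

namespace Pool.Agent.Lib_helper27.R

/-- `[f 0, …, f (n - 1)]` -/
def hist (f : ℕ → ℕ) (n : ℕ) : List ℕ := (List.range n).map f

/-- `π` predicts `f` with at most one error -/
def OneErr (π : List ℕ → ℕ) (f : ℕ → ℕ) : Prop := ∃ n₀, ∀ n, n ≠ n₀ → π (hist f n) = f n

/-- the beginning of the `l`-th block; the `l`-th block has `2 l` elements -/
def bl (l : ℕ) : ℕ := l * (l - 1)

/-- code of a triple -/
def pr (n i j : ℕ) : ℕ := Nat.pair (Nat.pair n i) j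

/-- the string `t` belongs to `G(n, i)`: it is zero at the places `pr n i j`, `j < n` -/
def Gr (n i : ℕ) (t : List Bool) : Prop := ∀ j < n, t[pr n i j]? = some false

/-- the cover of the limes superior of the sets `G(n, c n)` -/
def Sk (c : ℕ → ℕ) (k : ℕ) (s : List Bool) : Prop :=
  ∃ n, k < n ∧ Gr n (c n) s ∧ s.length = pr n (c n) (n - 1) + 1

end Pool.Agent.Lib_helper27.R
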