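import Pool.Agent.Lib_helper27.R.NameB

/-!
# Every name of a family of `ω₁` reals is given by labels
-/

set_option linter.unusedSectionVars false
set_option linter.unusedVariables false

namespace Pool.Agent.Lib_helper27.R

open Fml V Q Cardinal

/-! ### Codes of lists -/

/-- the list with code `y` -/
def dcd (y : ℕ) : List ℕ := Denumerable.ofNat (List ℕ) y

/-- the code of a list -/
def cod (t : List ℕ) : ℕ := Encodable.encode t

@[simp] theorem dcd_cod (t : List ℕ) : dcd (cod t) = t := Denumerable.ofNat_encode t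

theorem cod_nil : cod [] = 0 := rfl

/-- the `i`-th entry of the list with code `j` -/
def dig (j i : ℕ) : ℕ := (dcd j).getD i 0

/-- the node obtained from `ν` by adding the first `i` entries of `j` -/
def extn (ν j i : ℕ) : ℕ := cod (dcd ν ++ hist (dig j) i)

/-- the length of the block at the node `ν` -/
def Ln (ν : ℕ) : ℕ := 2 * (Nat.sqrt (dcd ν).length + 1)

/-- the next node -/
def tau (ν j : ℕ) : ℕ := extn ν j (Ln ν)

/-- the pairs (node, value) of the block of the move `j` at `ν` -/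
def Arel (ν j y v : ℕ) : Prop := ∃ i < Ln ν, y = extn ν j i ∧ v = dig j i

/-- the index of the block containing `n` -/
def lb (n : ℕ) : ℕ := Nat.findGreatest (fun l => bl (l + 1) ≤ n) n

theorem lb_spec {l i : ℕ} (hi : i < 2 * (l + 1)) : lb (bl (l + 1) + i) = l := by
  rw [lb, Nat.findGreatest_eq_iff]
  have h1 : bl (l + 2) = bl (l + 1) + 2 * (l + 1) := bl_succ (l + 1)
  refine ⟨?_, fun _ => Nat.le_add_right _ _, ?_⟩
  · have : l ≤ bl (l + 1) := by
      unfold bl
      simp only [Nat.add_sub_cancel]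
      exact Nat.le_mul_of_pos_left _ (Nat.succ_pos l)
    omega
  · intro n hn _ h
    have h2 : bl (l + 2) ≤ bl (n + 1) := bl_mono (by omega)
    omega

theorem hist_succ (f : ℕ → ℕ) (n : ℕ) : hist f (n + 1) = hist f n ++ [f n] := by
  simp [hist, List.range_succ]

theorem hist_congr {f g : ℕ → ℕ} {n : ℕ} (h : ∀ m < n, f m = g m) : hist f n = hist g n := by
  unfold hist
  apply List.map_congr_left
  intro m hm
  exact h m (List.mem_range.1 hm)

theorem hist_add {f g : ℕ → ℕ} {a n : ℕ} (h : ∀ i < n, f (a + i) = g i) :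
    hist f (a + n) = hist f a ++ hist g n := by
  induction n with
  | zero => simp [hist]
  | succ n ih =>
    rw [← Nat.add_assoc, hist_succ, ih fun i hi => h i (hi.trans (Nat.lt_succ_self n)),
      hist_succ g, h n (Nat.lt_succ_self n), List.append_assoc]

theorem hist_getD (f : ℕ → ℕ) {n m : ℕ} (h : m < n) (d : ℕ) : (hist f n).getD m d = f m := by
  simp [hist, List.getD_eq_getElem?_getD, h]

theorem dig_cod {f : ℕ → ℕ} {n i : ℕ} (h : i < n) : dig (cod (hist f n)) i = f i := by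
  rw [dig, dcd_cod, hist_getD f h]

theorem Ln_hist (u : ℕ → ℕ) (l : ℕ) : Ln (cod (hist u (bl (l + 1)))) = 2 * (l + 1) := by
  rw [Ln, dcd_cod, hist_length]
  have h : bl (l + 1) = l * l + l := by
    unfold bl
    simp only [Nat.add_sub_cancel]
    ring
  rw [h, Nat.sqrt_add_eq l (Nat.le_add_left l l)]

theorem extn_hist {u : ℕ → ℕ} {a j i : ℕ} (h : ∀ i' < i, u (a + i') = dig j i') :
    extn (cod (hist u a)) j i = cod (hist u (a + i)) := by
  rw [extn, dcd_cod, hist_add h]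

theorem tau_hist {u : ℕ → ℕ} {l j : ℕ} (h : ∀ i < 2 * (l + 1), u (bl (l + 1) + i) = dig j i) :
    tau (cod (hist u (bl (l + 1)))) j = cod (hist u (bl (l + 2))) := by
  rw [tau, Ln_hist, extn_hist h, show bl (l + 2) = bl (l + 1) + 2 * (l + 1) from bl_succ (l + 1)]

section

variable {Lm Lab : Type} {E : Nms Lm Om2 Lab}

theorem mk_idx : #(Om1 × ℕ × ℕ) ≤ aleph 1 := by
  rw [mk_prod, mk_prod]
  simp only [lift_id, mk_om1, mk_nat, aleph0_mul_aleph0]
  exact (aleph_mul_aleph0 1).le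

/-- `q` forces that the value of `Φ` at `(x, l)` is `j` -/
def Val (Φ : Name (Pc E)) (x : Om1) (l j : ℕ) (q : Pc E) : Prop :=
  Fc q (app3 Φ (onm (Pc E) x) (onm (Pc E) l) (onm (Pc E) j))

theorem Val.mono {Φ : Name (Pc E)} {x : Om1} {l j : ℕ} {q r : Pc E} (h : Val Φ x l j q)
    (hr : r ≤ q) : Val Φ x l j r := Forces.mono nf_basic hr h

variable {Φ : Name (Pc E)} {q₀ : Pc E}

theorem Val.unique (h0 : Fc q₀ (fun2 (oall (Pc E) Om1) (oall (Pc E) ℕ) (oall (Pc E) ℕ) Φ))
    {x : Om1} {l j j' : ℕ} {q : Pc E} (hq : q ≤ q₀) (h : Val Φ x l j q) (h' : Val Φ x l j' q) :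
    j = j' :=
  onm_inj (fun2_single (Forces.mono nf_basic hq h0) (onm_mem_oall x q) (onm_mem_oall l q) h h')

theorem exists_val (h0 : Fc q₀ (fun2 (oall (Pc E) Om1) (oall (Pc E) ℕ) (oall (Pc E) ℕ) Φ))
    (x : Om1) (l : ℕ) : Loc q₀ fun r => ∃ j, Val Φ x l j r :=
  fun2_nat h0 (onm_mem_oall x q₀) (onm_mem_oall l q₀)

/-- the labels -/
theorem exists_label [Nonempty Lab] (hE : ∀ F : ℕ → ℕ → Cnd Lm Om2 Lab × ℕ, ∃ e, E e = F)
    (h0 : Fc q₀ (fun2 (oall (Pc E) Om1) (oall (Pc E) ℕ) (oall (Pc E) ℕ) Φ)) :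
    ∃ (e : Om1 → Lab) (η : Om2), (∀ x i b, Below (η : WithTop Om2) (E (e x) i b).1) ∧
      ∀ x, ∀ q, q ≤ q₀ → ∀ l j, Val Φ x l j q →
        Loc q fun r => ∀ i < 2 * (l + 1), DecV E (LE E ⊤) (e x) r (bl (l + 1) + i) (dig j i) := by
  classical
  let D : Om1 → ℕ → Set (Pc E) := fun x l => {q | q ≤ q₀ ∧ ∃ j, Val Φ x l j q}
  choose A hAD hA hmax using fun x l => exists_max_antichain (D x l)
  have hcnt : ∀ x l, (A x l).Countable := fun x l => CCC.antichain (P := Pc E) (ccc_pc E) (hA x l)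
  have hne : ∀ x l, (A x l).Nonempty := by
    intro x l
    obtain ⟨r, hr, j, hj⟩ := (exists_val h0 x l).exists
    obtain ⟨a, ha, _⟩ := hmax x l r ⟨hr, j, hj⟩
    exact ⟨a, ha⟩
  choose en hen using fun x l => (hcnt x l).exists_eq_range (hne x l)
  have henA : ∀ x l b, en x l b ∈ A x l := by
    intro x l b
    rw [hen x l]
    exact ⟨b, rfl⟩
  choose hq0 jv hjv using fun x l b => hAD x l (henA x l b)
  choose e he using fun x => hE fun n b => (en x (lb n) b, dig (jv x (lb n) b) (n - bl (lb n + 1)))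
  -- the supports
  have hsup : ∀ z : Om1 × ℕ × ℕ, ∃ β : Om2, ∀ ζ ∈ (Cnd.a (en z.1 z.2.1 z.2.2)).support, ζ < β := by
    intro z
    obtain ⟨β, hβ⟩ := om2_bdd (S := ((Cnd.a (en z.1 z.2.1 z.2.2)).support : Set Om2)) (by
      refine (le_aleph0_iff_set_countable.2 (Finset.countable_toSet _)).trans (aleph0_le_aleph 1))
    exact ⟨β, fun ζ hζ => hβ ζ hζ⟩
  choose β hβ using hsup
  obtain ⟨η, hη⟩ := om2_bdd_range mk_idx β
  refine ⟨e, η, ?_, ?_⟩
  · intro x i b ζ hζ
    rw [he]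
    by_contra hcon
    have h1 := hβ (x, lb i, b) ζ (Finsupp.mem_support_iff.2 hcon)
    exact absurd (h1.trans (hη _)) (not_lt.2 (WithTop.coe_le_coe.1 hζ))
  · intro x q hq l j hv r hr
    obtain ⟨a, ha, s, hs1, hs2⟩ := hmax x l r ⟨hr.trans hq, j, hv.mono hr⟩
    rw [hen x l] at ha
    obtain ⟨b, rfl⟩ := ha
    have hex : ∃ b, s ≤ en x l b := ⟨b, hs2⟩
    refine ⟨s, hs1, fun i hi => Or.inl ⟨Nat.find hex, ?_, ?_, ?_⟩⟩
    · rw [he]
      simp only [lb_spec hi]
      exact Nat.find_spec hex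
    · rw [he]
      simp only [lb_spec hi, Nat.add_sub_cancel_left]
      rw [Val.unique h0 (hs1.trans (hr.trans hq)) ((hjv x l (Nat.find hex)).mono (Nat.find_spec hex))
        (hv.mono (hs1.trans hr))]
    · intro b' hb' t ht1 ht2
      rw [he] at ht2
      simp only [lb_spec hi] at ht2
      have h1 : en x l b' = en x l (Nat.find hex) := hA x l _ (henA x l b') _ (henA x l _)
        ⟨t, ht2, le_trans (show @LE.le (Pc E) _ t s from ht1) (Nat.find_spec hex)⟩
      refine Nat.find_min hex hb' ?_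
      rw [h1]
      exact Nat.find_spec hex

/-- from decisions to values -/
theorem val_of_dec (h0 : Fc q₀ (fun2 (oall (Pc E) Om1) (oall (Pc E) ℕ) (oall (Pc E) ℕ) Φ))
    {e : Lab} {x : Om1}
    (h : ∀ q, q ≤ q₀ → ∀ l j, Val Φ x l j q →
        Loc q fun r => ∀ i < 2 * (l + 1), DecV E (LE E ⊤) e r (bl (l + 1) + i) (dig j i))
    {q : Pc E} (hq : q ≤ q₀) {l : ℕ} {u : ℕ → ℕ}
    (hu : ∀ i < 2 * (l + 1), DecV E (LE E ⊤) e q (bl (l + 1) + i) (u (bl (l + 1) + i))) :
    Loc q fun r => ∃ j, Val Φ x l j r ∧ ∀ i < 2 * (l + 1), u (bl (l + 1) + i) = dig j i := by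
  refine ((exists_val h0 x l).mono hq).bind ?_
  rintro r hr ⟨j, hj⟩
  refine (h r (hr.trans hq) l j hj).imp ?_
  intro s hs hs'
  refine ⟨j, hj.mono hs, fun i hi => ?_⟩
  exact ((hu i hi).mono (hs.trans hr)).unique (hs' i hi)

/-- many values at once -/
theorem vals_of_dec (h0 : Fc q₀ (fun2 (oall (Pc E) Om1) (oall (Pc E) ℕ) (oall (Pc E) ℕ) Φ))
    {e : Lab} {x : Om1}
    (h : ∀ q, q ≤ q₀ → ∀ l j, Val Φ x l j q →
        Loc q fun r => ∀ i < 2 * (l + 1), DecV E (LE E ⊤) e r (bl (l + 1) + i) (dig j i))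
    {u : ℕ → ℕ} (L : ℕ) : ∀ {q : Pc E}, q ≤ q₀ →
    (∀ n < bl (L + 1), DecV E (LE E ⊤) e q n (u n)) →
    Loc q fun r => ∃ j : ℕ → ℕ, ∀ l < L, Val Φ x l (j l) r ∧
      ∀ i < 2 * (l + 1), u (bl (l + 1) + i) = dig (j l) i := by
  induction L with
  | zero =>
    intro q hq hu
    exact Loc.pure fun r _ => ⟨fun _ => 0, fun l hl => absurd hl (Nat.not_lt_zero l)⟩
  | succ L ih =>
    intro q hq hu
    have h1 : bl (L + 1 + 1) = bl (L + 1) + 2 * (L + 1) := bl_succ (L + 1)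
    refine (ih hq fun n hn => hu n (by omega)).bind ?_
    rintro r hr ⟨j, hj⟩
    refine (val_of_dec h0 h (hr.trans hq) (l := L) (u := u) fun i hi =>
      (hu _ (by omega)).mono hr).imp ?_
    rintro s hs ⟨j', hj'1, hj'2⟩
    refine ⟨fun l => if l = L then j' else j l, fun l hl => ?_⟩
    by_cases hlL : l = L
    · subst hlL
      simp only [if_true]
      exact ⟨hj'1, hj'2⟩
    · simp only [hlL, if_false]
      obtain ⟨h2, h3⟩ := hj l (by omega)
      exact ⟨h2.mono hs, h3⟩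

end

end Pool.Agent.Lib_helper27.R
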