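import Pool.Agent.Lib_helper27.R.Pos
import Pool.Agent.Lib_helper13.RB.B7
import Pool.Agent.Lib_helper44.RB.B6
import Pool.Agent.Lib_helper72.RB.C1

/-!
# The main theorem
-/

set_option linter.unusedSectionVars false
set_option linter.unusedVariables false

namespace Pool.Agent.Lib_helper27

open Fml

namespace ST

universe u

variable {M : Type u} [SetStr M] [ZFC M]

theorem holds_rothPart {K τ A r : M} (hP : PredSys K τ A r) :
    Holds (EE M) (rothPart omega K) := by
  unfold rothPart isUnion
  simp only [holds_all, holds_imp, holds_and, holds_isTop, holds_isSecond, holds_ball, mem_def,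
    holds_isSubset, holds_isRoth, holds_ex, holds_isInj, holds_iff, holds_bex, holds_mem]
  rintro Y T ⟨hT, hB⟩ F u ⟨hF, hFK, hu⟩
  refine roth_union_proof hP hT hB (fun X hX => ?_) hFK hu
  exact hF X hX

end ST

namespace R

open V Q Pool.Agent.Lib_helper27.ST Cardinal

theorem holds_main {Lab : Type} [Nonempty Lab] (E : Nms Om1 Om2 Lab)
    (hE : ∀ F : ℕ → ℕ → Cnd Om1 Om2 Lab × ℕ, ∃ e, E e = F) :
    Holds (extE (Pc E)) (addNltAddRoth : Fml (Ext (Pc E))) := by
  have hK : Holds (EE (Ext (Pc E))) (isHartogs (omega : Ext (Pc E)) (π (oall (Pc E) Om1))) := by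
    rw [omega_eq]
    exact (los (Lk.isHartogs _ _)).2 (T_of_forces fun p => hart_ccc (ccc_pc E) p)
  have hP : PredSys (π (oall (Pc E) Om1) : Ext (Pc E)) (π (tauN (Pc E))) (π (AN (Pc E))) empty :=
    predSys_of forces_tau forces_fin forces_cov (forces_pred hE)
  have hM : MeasSys (π (oall (Pc E) Om1) : Ext (Pc E)) (π (CN E)) (π (GN (Pc E))) :=
    measSys_of forces_coh forces_str forces_null forces_pos
  show Holds (EE (Ext (Pc E))) addNltAddRoth
  unfold addNltAddRoth
  simp only [holds_ex, holds_and]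
  refine ⟨omega, two, π (oall (Pc E) Om1), holds_isOmega.2 rfl, holds_isTwo.2 rfl, hK,
    null_part_pr ?_ hM, holds_rothPart hP⟩
  exact holds_isOrd.1 hK.1

/-- There is a model of ZFC in which `add(N) = ω₁ < add(S₁(O, O))`. -/
theorem main : ∃ (M : Type 1) (E : M → M → Prop), IsModelOfZFC E ∧ Holds E addNltAddRoth := by
  obtain ⟨Lab, hLab, E, hE⟩ := exists_labels_pr
  exact ⟨Ext (Pc E), extE (Pc E), ext_zfc, holds_main E hE⟩

end R

end Pool.Agent.Lib_helper27
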