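import Pool.Agent.Lib_helper27.R.Label

/-!
# Strings with positive measure outside a forced set
-/

namespace Pool.Agent.Lib_helper27.R

open V Q Cardinal

/-- `t` has positive measure outside the set forced by `r` -/
def POS {Lab : Type} {E : Nms Om1 Om2 Lab} (dec : List Bool → Pc E → Prop)
    (m : List Bool → Finset (List Bool) → ℝ) (t : List Bool) (r : Pc E) : Prop :=
  ∃ ε : ℝ, 0 < ε ∧ ∀ r', r' ≤ r → ∀ T : Finset (List Bool), (∀ s ∈ T, dec s r') → ε ≤ m t T

end Pool.Agent.Lib_helper27.R
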