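import Pool.Agent.Lib_helper27.R.Label
import Pool.Agent.Lib_helper27.Q.TPV

/-!
# Prediction in the extension
-/

set_option linter.unusedSectionVars false
set_option linter.unusedVariables false

namespace Pool.Agent.Lib_helper27

universe u v

namespace Fml

variable {U : Type v}

/-- the sets `A(ν, j)` are bounded -/
def fFin (W A : U) : Fml U :=
  ball W fun ν => ball W fun j => bex W fun n => all fun y => all fun v =>
    imp (app4 A ν j y v) (and (mem y n) (mem v n))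

/-- every function contains some `A(ν, j)` -/
def fCov (W A : U) : Fml U :=
  all fun g => imp (fun1 W g) (ball W fun ν => bex W fun j => all fun y => all fun v =>
    imp (app4 A ν j y v) (app g y v))

/-- `s` is the run of `Φ(ξ, ·)` -/
def isRun (W τ Φ z ξ s : U) : Fml U :=
  and (fun1 W s) (and (app s z z) (ball W fun l => all fun ν => all fun j => all fun ν' =>
    all fun l' => imp (and (app s l ν) (and (app3 Φ ξ l j) (and (app3 τ ν j ν') (isSucc l' l))))
      (app s l' ν')))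

/-- `p` is right in block `l` -/
def predB (A Φ p ξ s l : U) : Fml U :=
  ex fun ν => ex fun j => ex fun y => ex fun v =>
    and (app s l ν) (and (app3 Φ ξ l j) (and (app4 A ν j y v) (app p y v)))

/-- `p` is right in almost all blocks -/
def predC (W A Φ p ξ s : U) : Fml U :=
  bex W fun l₀ => ball W fun l => imp (neg (mem l l₀)) (predB A Φ p ξ s l)

/-- prediction of families of `K` functions -/
def fPred (W K τ A z : U) : Fml U :=
  all fun Φ => imp (fun2 K W W Φ) (ex fun p => and (fun1 W p) (ball K fun ξ => all fun s =>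
    imp (isRun W τ Φ z ξ s) (predC W A Φ p ξ s)))

end Fml

open Fml

namespace R

open V Q Pool.Agent.Lib_helper27.ST Cardinal

section gen

variable {P : Type} [Preorder P]

/-- the name of `τ` -/
noncomputable def tauN (P : Type) [Preorder P] : Name P :=
  mk3 (ℕ × ℕ) (fun z => onm P z.1) (fun z => onm P z.2) (fun z => onm P (tau z.1 z.2))
    fun _ _ => True

/-- the name of `A` -/
noncomputable def AN (P : Type) [Preorder P] : Name P :=
  mk4 {z : (ℕ × ℕ) × ℕ × ℕ // Arel z.1.1 z.1.2 z.2.1 z.2.2} (fun z => onm P z.1.1.1)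
    (fun z => onm P z.1.1.2) (fun z => onm P z.1.2.1) (fun z => onm P z.1.2.2) fun _ _ => True

theorem fc_tauN (ν j : ℕ) (p : P) : Fc p (app3 (tauN P) (onm P ν) (onm P j) (onm P (tau ν j))) :=
  (fc_app3 down_true).2 (Loc.pure fun r _ => ⟨(ν, j), trivial, feq_refl _ _, feq_refl _ _,
    feq_refl _ _⟩)

theorem fc_AN {ν j y v : ℕ} (h : Arel ν j y v) (p : P) :
    Fc p (app4 (AN P) (onm P ν) (onm P j) (onm P y) (onm P v)) :=
  (fc_app4 down_true).2 (Loc.pure fun r _ => ⟨⟨((ν, j), (y, v)), h⟩, trivial, feq_refl _ _,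
    feq_refl _ _, feq_refl _ _, feq_refl _ _⟩)

theorem fc_AN_conv {ν j : ℕ} {y v : Name P} {p : P}
    (h : Fc p (app4 (AN P) (onm P ν) (onm P j) y v)) :
    Loc p fun r => ∃ y' v' : ℕ, Arel ν j y' v' ∧ feq y (onm P y') r ∧ feq v (onm P v') r := by
  refine ((fc_app4 down_true).1 h).imp ?_
  rintro r _ ⟨⟨⟨⟨ν', j'⟩, y', v'⟩, hA⟩, _, h1, h2, h3, h4⟩
  obtain rfl := onm_inj h1
  obtain rfl := onm_inj h2
  exact ⟨y', v', hA, h3, h4⟩

theorem forces_tau (p : P) : Fc p (fun2 (oall P ℕ) (oall P ℕ) (oall P ℕ) (tauN P)) := by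
  refine (forces_ball nf_basic).2 fun a q hq ha => (forces_ball nf_basic).2 fun b r hr hb => ?_
  refine forces_bex.2 ?_
  refine ((fmem_oall.1 ha).mono hr).bind ?_
  rintro s hs ⟨ν, hν⟩
  refine (fmem_oall.1 (fmem_mono hs hb)).imp ?_
  rintro t ht ⟨j, hj⟩
  refine ⟨onm P (tau ν j), onm_mem_oall _ t, ?_, fun c => ?_⟩
  · exact app3_congr (feq_symm (feq_mono ht hν)) (feq_symm hj) (feq_refl _ _) (fc_tauN ν j t)
  · refine (forces_imp nf_basic).2 fun w hw h => ?_
    refine feq_dense (((fc_app3 down_true).1 h).imp ?_)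
    rintro x hx ⟨⟨ν', j'⟩, _, h1, h2, h3⟩
    obtain rfl := onm_inj (feq_trans (feq_symm (feq_mono (hx.trans (hw.trans ht)) hν)) h1)
    obtain rfl := onm_inj (feq_trans (feq_symm (feq_mono (hx.trans hw) hj)) h2)
    exact h3

theorem forces_fin (p : P) : Fc p (fFin (oall P ℕ) (AN P)) := by
  refine (forces_ball nf_basic).2 fun a q hq ha => (forces_ball nf_basic).2 fun b r hr hb => ?_
  refine forces_bex.2 ?_
  refine ((fmem_oall.1 ha).mono hr).bind ?_
  rintro s hs ⟨ν, hν⟩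
  refine (fmem_oall.1 (fmem_mono hs hb)).imp ?_
  rintro t ht ⟨j, hj⟩
  -- a bound
  let B : ℕ := ∑ i ∈ Finset.range (Ln ν), (extn ν j i + dig j i + 1)
  have hB : ∀ y v, Arel ν j y v → y < B ∧ v < B := by
    rintro y v ⟨i, hi, rfl, rfl⟩
    have h1 : extn ν j i + dig j i + 1 ≤ B :=
      Finset.single_le_sum (f := fun i => extn ν j i + dig j i + 1) (fun _ _ => Nat.zero_le _)
        (Finset.mem_range.2 hi)
    constructor <;> omega
  refine ⟨onm P B, onm_mem_oall _ t, fun y v => ?_⟩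
  refine (forces_imp nf_basic).2 fun w hw h => ?_
  have h' := app4_congr (feq_mono (hw.trans ht) hν) (feq_mono hw hj) (feq_refl y w)
    (feq_refl v w) h
  refine Forces.dense nf_basic ((fc_AN_conv h').imp ?_)
  rintro x _ ⟨y', v', hA, h1, h2⟩
  obtain ⟨h3, h4⟩ := hB y' v' hA
  exact ⟨fmem_congr_left (feq_symm h1) (onm_mem h3 x), fmem_congr_left (feq_symm h2) (onm_mem h4 x)⟩

/-- digits of a function along its own path -/
theorem exists_digits {g : Name P} {p : P} (h : Fc p (fun1 (oall P ℕ) g)) (t : List ℕ) (n : ℕ) :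
    Loc p fun r => ∃ f : ℕ → ℕ, ∀ i < n, Fc r (app g (onm P (cod (t ++ hist f i))) (onm P (f i))) := by
  induction n with
  | zero => exact Loc.pure fun r _ => ⟨fun _ => 0, fun i hi => absurd hi (Nat.not_lt_zero i)⟩
  | succ n ih =>
    refine ih.bind ?_
    rintro r hr ⟨f, hf⟩
    refine (fun1_nat (Forces.mono nf_basic hr h) (cod (t ++ hist f n))).imp ?_
    rintro s hs ⟨v, hv⟩
    have hagree : ∀ i ≤ n, hist (fun i => if i = n then v else f i) i = hist f i := by
      intro i hi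
      refine hist_congr fun m hm => ?_
      rw [if_neg (by omega)]
    refine ⟨fun i => if i = n then v else f i, fun i hi => ?_⟩
    rw [hagree i (by omega)]
    by_cases hin : i = n
    · subst hin
      simpa using hv
    · simp only [if_neg hin]
      exact Forces.mono nf_basic hs (hf i (by omega))

theorem forces_cov (p : P) : Fc p (fCov (oall P ℕ) (AN P)) := by
  intro g
  refine (forces_imp nf_basic).2 fun q hq hg => ?_
  refine (forces_ball nf_basic).2 fun a r hr ha => ?_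
  refine forces_bex.2 ?_
  refine (fmem_oall.1 ha).bind ?_
  rintro s hs ⟨ν, hν⟩
  refine (exists_digits (Forces.mono nf_basic (hs.trans hr) hg) (dcd ν) (Ln ν)).imp ?_
  rintro t ht ⟨f, hf⟩
  refine ⟨onm P (cod (hist f (Ln ν))), onm_mem_oall _ t, fun y v => ?_⟩
  refine (forces_imp nf_basic).2 fun w hw h => ?_
  have h' := app4_congr (feq_mono (hw.trans ht) hν) (feq_refl _ w) (feq_refl y w)
    (feq_refl v w) h
  refine Forces.dense nf_basic ((fc_AN_conv h').imp ?_)
  rintro x hx ⟨y', v', ⟨i, hi, rfl, rfl⟩, h1, h2⟩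
  refine app_congr' (feq_symm h1) (feq_symm h2) ?_
  rw [dig_cod hi, extn, hist_congr (g := f) fun m hm => dig_cod (hm.trans hi)]
  exact Forces.mono nf_basic (hx.trans hw) (hf i hi)

end gen

section

variable {Lm Lab : Type} {E : Nms Lm Om2 Lab}

/-- the value at a node can be defined -/
theorem exists_def [Nonempty Lab] (p : Cnd Lm Om2 Lab) (η : Om2) (t : List ℕ) :
    ∃ q, LE E ⊤ q p ∧ ∃ v, (q.a η).s t = v + 1 := by
  classical
  obtain ⟨q, h1, h2, h3⟩ := exists_incr' (E := E) p η (t.length + 2)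
  by_cases h : (q.a η).s t = 0
  · have hlen : t.length < bl (q.a η).k := by
      refine lt_of_lt_of_le ?_ (bl_mono h2)
      unfold bl
      have : (t.length + 2) * (t.length + 2 - 1) = (t.length + 2) * (t.length + 1) := rfl
      rw [this]
      nlinarith
    refine ⟨setAt η ⟨(q.a η).k, (q.a η).s.update t 1, (q.a η).F, ?_, (q.a η).hF⟩ q,
      (setAt_le ?_ ⊤).trans h1, 0, ?_⟩
    · intro t' ht'
      by_cases htt : t' = t
      · rw [htt]
        exact hlen
      · rw [Finsupp.update_apply, if_neg htt] at ht'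
        exact (q.a η).hs t' ht'
    · rw [gd_eq]
      refine ⟨?_, ?_, ?_, ?_⟩
      · rw [setAt_self]
      · rw [setAt_self]
        intro t' ht'
        have htt : t' ≠ t := fun htt => ht' (htt ▸ h)
        show ((q.a η).s.update t 1) t' = _
        rw [Finsupp.update_apply, if_neg htt]
      · rw [setAt_self]
      · rw [setAt_self]
        intro e he l h4 h5
        exact absurd h4 (not_le.2 h5)
    · rw [setAt_self]
      show ((q.a η).s.update t 1) t = _
      rw [Finsupp.update_apply, if_pos rfl]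
  · exact ⟨q, h1, (q.a η).s t - 1, by omega⟩

variable (E) in
/-- the name of the predictor at `η` -/
noncomputable def pN (η : Om2) : Name (Pc E) :=
  mkFn (ℕ × ℕ) (fun z => onm (Pc E) z.1) (fun z => onm (Pc E) z.2)
    fun z q => (Cnd.a q η).s (dcd z.1) = z.2 + 1

theorem down_pN (η : Om2) : Down (P := Pc E)
    (fun (z : ℕ × ℕ) q => (Cnd.a q η).s (dcd z.1) = z.2 + 1) := by
  intro z p q hq h
  have h1 := (pc_le.1 hq).2 η (WithTop.coe_lt_top _)
  rw [gd_eq] at h1
  rw [h1.2.1 _ (by rw [h]; exact Nat.succ_ne_zero _), h]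

theorem fun1_pN [Nonempty Lab] (η : Om2) (p : Pc E) : Fc p (fun1 (oall (Pc E) ℕ) (pN E η)) := by
  refine fc_fun1 (down_pN η) ?_ ?_
  · intro y q hq
    obtain ⟨r, hr, v, hv⟩ := exists_def (E := E) q η (dcd y)
    exact ⟨r, hr, v, hv⟩
  · intro q hq y v v' h1 h2
    have : v + 1 = v' + 1 := h1.symm.trans h2
    omega

theorem congr_run (W τ A z Φ pn : Name (Pc E)) : Congr1 (fun ξ => all fun s =>
    imp (isRun W τ Φ z ξ s) (predC W A Φ pn ξ s)) := by
  intro p x y h
  exact DF.rel (fun z => feq_refl z p) (cv (all fun s =>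
    imp (isRun 0 1 2 3 6 s) (predC 0 4 2 5 6 s)) 7) 7 (env [W, τ, Φ, z, A, pn] x)
    (env [W, τ, Φ, z, A, pn] y)
    (rel_env (r := fun x y => feq x y p) (.cons (feq_refl _ _) (.cons (feq_refl _ _)
      (.cons (feq_refl _ _) (.cons (feq_refl _ _) (.cons (feq_refl _ _)
      (.cons (feq_refl _ _) .nil)))))) h)

theorem congr_predB (A Φ pn ξ s k : Name (Pc E)) : Congr1 (fun l =>
    imp (neg (mem l k)) (predB A Φ pn ξ s l)) := by
  intro p x y h
  exact DF.rel (fun z => feq_refl z p) (cv (imp (neg (mem 6 0)) (predB 1 2 3 4 5 6)) 7) 7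
    (env [k, A, Φ, pn, ξ, s] x) (env [k, A, Φ, pn, ξ, s] y)
    (rel_env (r := fun x y => feq x y p) (.cons (feq_refl _ _) (.cons (feq_refl _ _)
      (.cons (feq_refl _ _) (.cons (feq_refl _ _) (.cons (feq_refl _ _)
      (.cons (feq_refl _ _) .nil)))))) h)

theorem run_step {P : Type} [Preorder P] {Φ s : Name P} {x : Om1} {p : P}
    (h : Fc p (isRun (oall P ℕ) (tauN P) Φ (onm P (0 : ℕ)) (onm P x) s)) {l ν j : ℕ}
    (h1 : Fc p (app s (onm P l) (onm P ν)))
    (h2 : Fc p (app3 Φ (onm P x) (onm P l) (onm P j))) :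
    Fc p (app s (onm P (l + 1)) (onm P (tau ν j))) := by
  have h3 := (forces_ball nf_basic).1 h.2.2 (onm P l) p le_rfl (onm_mem_oall l p)
  exact (forces_imp nf_basic).1 (h3 (onm P ν) (onm P j) (onm P (tau ν j)) (onm P (l + 1))) p le_rfl
    ⟨h1, h2, fc_tauN ν j p, fc_isSucc l p⟩

theorem forces_pred [Nonempty Lab] (hE : ∀ F : ℕ → ℕ → Cnd Lm Om2 Lab × ℕ, ∃ e, E e = F)
    (p : Pc E) : Fc p (fPred (oall (Pc E) ℕ) (oall (Pc E) Om1) (tauN (Pc E)) (AN (Pc E))
      (onm (Pc E) (0 : ℕ))) := by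
  intro Φ
  refine (forces_imp nf_basic).2 fun q₁ hq₁ h0 => ?_
  refine forces_ex.2 (Loc.pure fun q₀ hq₀ => ?_)
  replace h0 := Forces.mono nf_basic hq₀ h0
  obtain ⟨e, η, he1, he2⟩ := exists_label hE h0
  refine ⟨pN E η, fun1_pN η q₀, ?_⟩
  refine (fc_ball_oall (congr_run _ _ _ _ _ _)).2 fun x s => ?_
  refine (forces_imp nf_basic).2 fun q hq hrun => ?_
  refine forces_bex.2 ?_
  intro r hr
  obtain ⟨r₁, hr₁, hex⟩ := exists_add (E := E) r η (e x)
  have hr₁' : @LE.le (Pc E) _ r₁ r := hr₁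
  refine ⟨r₁, hr₁, onm (Pc E) (r₁.a η).k, onm_mem_oall _ _, ?_⟩
  refine (fc_ball_oall (congr_predB _ _ _ _ _ _)).2 fun l => ?_
  refine (forces_imp nf_basic).2 fun r₂ hr₂ hl => ?_
  have hkl : (r₁.a η).k ≤ l := by
    by_contra hcon
    exact hl r₂ le_rfl (onm_mem (not_le.1 hcon) r₂)
  refine forces_ex.2 ?_
  intro r₃ hr₃
  obtain ⟨r₄, hr₄, hk₄, _⟩ := exists_incr' (E := E) r₃ η (l + 2)
  have h43 : @LE.le (Pc E) _ r₄ r₃ := hr₄
  have h41 : LE E ⊤ r₄ r₁ := pc_le.1 (h43.trans (hr₃.trans hr₂))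
  have hgd := h41.2 η (WithTop.coe_lt_top _)
  rw [gd_eq] at hgd
  obtain ⟨r', hr', u, hu, n, hn1, hn2, hn3⟩ := hgd.2.2.2 (e x) hex (l + 1) (by omega) (by omega) r₄
    (LE.refl _ _)
  have h54 : @LE.le (Pc E) _ (piece η r' r₄) r₄ := piece_le hr' ⊤
  have hq54 : @LE.le (Pc E) _ (piece η r' r₄) q := h54.trans (h43.trans (hr₃.trans (hr₂.trans
    (hr₁'.trans hr))))
  have hdec : ∀ i < bl (l + 1 + 1), DecV E (LE E ⊤) (e x) (piece η r' r₄) i (u i) := by
    intro i hi
    rw [decV_iff (fun b => he1 x i b) le_top]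
    exact (hu i hi).mono (piece_eq _ _)
  obtain ⟨r₆, hr₆, j, hj⟩ := (vals_of_dec h0 (he2 x) (u := u) (l + 1) (hq54.trans hq) hdec).exists
  have hrun6 := Forces.mono nf_basic (hr₆.trans hq54) hrun
  have key : ∀ l' ≤ l, Fc r₆ (app s (onm (Pc E) l') (onm (Pc E) (cod (hist u (bl (l' + 1)))))) := by
    intro l' hl'
    induction l' with
    | zero => exact hrun6.2.1
    | succ l' ih =>
      have h1 := ih (by omega)
      have h2 := hj l' (by omega)
      have h3 := run_step hrun6 h1 h2.1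
      rw [tau_hist h2.2] at h3
      exact h3
  have hjl := hj l (by omega)
  have h2 : bl (l + 1 + 1) = bl (l + 1) + 2 * (l + 1) := bl_succ (l + 1)
  refine ⟨r₆, hr₆.trans (h54.trans h43), onm (Pc E) (cod (hist u (bl (l + 1)))), ?_⟩
  refine forces_ex.2 (Loc.pure fun r₇ h7 => ⟨onm (Pc E) (j l), ?_⟩)
  refine forces_ex.2 (Loc.pure fun r₈ h8 => ⟨onm (Pc E) (cod (hist u n)), ?_⟩)
  refine forces_ex.2 (Loc.pure fun r₉ h9 => ⟨onm (Pc E) (u n), ?_⟩)
  have h96 : r₉ ≤ r₆ := h9.trans (h8.trans h7)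
  refine ⟨Forces.mono nf_basic h96 (key l le_rfl), hjl.1.mono h96, fc_AN ?_ _, ?_⟩
  · obtain ⟨i, rfl⟩ := Nat.exists_eq_add_of_le hn1
    have hi : i < 2 * (l + 1) := by omega
    refine ⟨i, by rw [Ln_hist]; exact hi, ?_, hjl.2 i hi⟩
    rw [extn_hist fun i' hi' => hjl.2 i' (hi'.trans hi)]
  · refine (fc_app (down_pN η)).2 (Loc.pure fun r' h' => ⟨(cod (hist u n), u n), ?_, feq_refl _ _,
      feq_refl _ _⟩)
    refine down_pN η (cod (hist u n), u n) r₄ r' (h'.trans (h96.trans (hr₆.trans h54))) ?_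
    simp only [dcd_cod]
    exact hn3

end

end R

namespace ST

variable {M : Type u} [SetStr M] [ZFC M]

theorem holds_fun1 {W g : M} : Holds (EE M) (fun1 W g) ↔
    ∀ y, y ∈ W → ∃ v, v ∈ W ∧ opair y v ∈ g ∧ ∀ v', opair y v' ∈ g → v' = v := by
  unfold fun1
  simp only [holds_ball, mem_def, holds_bex, holds_and, holds_app, holds_all, holds_imp, holds_eq]

theorem holds_fun2 {A B W S : M} : Holds (EE M) (fun2 A B W S) ↔
    ∀ a, a ∈ A → ∀ b, b ∈ B → ∃ v, v ∈ W ∧ opair (opair a b) v ∈ S ∧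
      ∀ v', opair (opair a b) v' ∈ S → v' = v := by
  unfold fun2
  simp only [holds_ball, mem_def, holds_bex, holds_and, holds_app3, holds_all, holds_imp, holds_eq]

theorem holds_isRun {W τ Φ z ξ s : M} : Holds (EE M) (isRun W τ Φ z ξ s) ↔
    (∀ y, y ∈ W → ∃ v, v ∈ W ∧ opair y v ∈ s ∧ ∀ v', opair y v' ∈ s → v' = v) ∧ opair z z ∈ s ∧
      ∀ l, l ∈ W → ∀ ν j ν', opair l ν ∈ s → opair (opair ξ l) j ∈ Φ →
        opair (opair ν j) ν' ∈ τ → opair (succ l) ν' ∈ s := by
  unfold isRun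
  simp only [holds_and, holds_fun1, holds_app, holds_ball, mem_def, holds_all, holds_imp,
    holds_app3, holds_isSucc]
  constructor
  · rintro ⟨h1, h2, h3⟩
    exact ⟨h1, h2, fun l hl ν j ν' h4 h5 h6 => h3 l hl ν j ν' _ ⟨h4, h5, h6, rfl⟩⟩
  · rintro ⟨h1, h2, h3⟩
    refine ⟨h1, h2, ?_⟩
    rintro l hl ν j ν' _ ⟨h4, h5, h6, rfl⟩
    exact h3 l hl ν j ν' h4 h5 h6

theorem holds_predC {W A Φ p ξ s : M} : Holds (EE M) (predC W A Φ p ξ s) ↔
    ∃ l₀, l₀ ∈ W ∧ ∀ l, l ∈ W → ¬ l ∈ l₀ → ∃ ν j y v, opair l ν ∈ s ∧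
        opair (opair ξ l) j ∈ Φ ∧ R4 A ν j y v ∧ opair y v ∈ p := by
  unfold predC predB
  simp only [holds_bex, mem_def, holds_ball, holds_imp, holds_neg, holds_mem, holds_ex, holds_and,
    holds_app, holds_app3, holds_app4]

end ST

namespace R

open V Q Pool.Agent.Lib_helper27.ST Cardinal

section

variable {P : Type} [Preorder P] [Nonempty P]

theorem zero_eq : (π (onm P (0 : ℕ)) : Ext P) = empty := by
  refine ST.ext fun z => ?_
  obtain ⟨z, rfl⟩ := π_surj z
  refine iff_of_false (fun h => ?_) (not_mem_empty _)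
  obtain ⟨p, hp⟩ := Filter.Eventually.exists (show T (mem z (onm P (0 : ℕ))) from h)
  obtain ⟨_, _, n, hn, _⟩ := (fmem_onm.1 (show fmem z (onm P (0 : ℕ)) p from hp)).exists
  exact Nat.not_lt_zero n hn

theorem predSys_of {K τ A : Name P}
    (h1 : ∀ p : P, Fc p (fun2 (oall P ℕ) (oall P ℕ) (oall P ℕ) τ))
    (h2 : ∀ p : P, Fc p (fFin (oall P ℕ) A))
    (h3 : ∀ p : P, Fc p (fCov (oall P ℕ) A))
    (h4 : ∀ p : P, Fc p (fPred (oall P ℕ) K τ A (onm P (0 : ℕ)))) :
    PredSys (π K : Ext P) (π τ) (π A) empty := by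
  have k1 : Holds (EE (Ext P)) (fun2 (π (oall P ℕ)) (π (oall P ℕ)) (π (oall P ℕ)) (π τ)) :=
    (los (lk_env2 (cv (fun2 0 0 0 1) 2) (oall P ℕ) τ)).2 (T_of_forces h1)
  have k2 : Holds (EE (Ext P)) (fFin (π (oall P ℕ)) (π A)) :=
    (los (lk_env2 (cv (fFin 0 1) 2) (oall P ℕ) A)).2 (T_of_forces h2)
  have k3 : Holds (EE (Ext P)) (fCov (π (oall P ℕ)) (π A)) :=
    (los (lk_env2 (cv (fCov 0 1) 2) (oall P ℕ) A)).2 (T_of_forces h3)
  have k4 : Holds (EE (Ext P)) (fPred (π (oall P ℕ)) (π K) (π τ) (π A) (π (onm P (0 : ℕ)))) :=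
    (los (lk_env5 (cv (fPred 0 1 2 3 4) 5) (oall P ℕ) K τ A (onm P (0 : ℕ)))).2 (T_of_forces h4)
  rw [← omega_eq] at k1 k2 k3 k4
  rw [zero_eq] at k4
  refine ⟨empty_mem_omega, ?_, ?_, ?_, ?_⟩
  · exact holds_fun2.1 k1
  · unfold fFin at k2
    simp only [holds_ball, mem_def, holds_bex, holds_all, holds_imp, holds_app4, holds_and,
      holds_mem] at k2
    exact k2
  · unfold fCov at k3
    simp only [holds_ball, mem_def, holds_bex, holds_all, holds_imp, holds_app4, holds_fun1,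
      holds_app] at k3
    exact k3
  · unfold fPred at k4
    simp only [holds_ball, mem_def, holds_ex, holds_all, holds_imp, holds_fun2, holds_and,
      holds_fun1, holds_isRun, holds_predC] at k4
    exact k4

end

end R

end Pool.Agent.Lib_helper27
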