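import Pool.Agent.Lib_helper27.R.Str
import Pool.Agent.Lib_helper27.R.Pred
import Pool.Agent.Lib_helper27.R.PosDef

/-!
# Measure in the extension
-/

set_option linter.unusedSectionVars false
set_option linter.unusedVariables false

namespace Pool.Agent.Lib_helper27

universe u v

namespace Fml

variable {U : Type v}

/-- the elements of `G(n, m)` are strings of length at least `n` -/
def fStr (W N G : U) : Fml U :=
  all fun n => all fun m => all fun t => imp (app3 G n m t)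
    (bex W fun l => and (isFunc t l N) (neg (mem l n)))

/-- the limes superior of `G(n, c(n))` is a null set -/
def fNull (W N K C G : U) : Fml U :=
  ball K fun ξ => ball W fun k => ex fun S => and (isSmall W N k S)
    (ball W fun n => imp (mem k n) (all fun m => all fun t =>
      imp (and (app3 C ξ n m) (app3 G n m t)) (bex S fun s => isSubset s t)))

/-- the Cohen reals are generic for the set of positive strings -/
def fGen (W K C G P : U) : Fml U :=
  bex K fun ξ => ball P fun t => ball W fun k => bex W fun n => and (neg (mem n k))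
    (bex P fun t' => and (isSubset t t') (ex fun m => and (app3 C ξ n m) (app3 G n m t')))

/-- positive strings -/
def fPos (W N K C G o z : U) : Fml U :=
  all fun S => imp (isSmall W N o S) (ex fun P =>
    and (ball P fun t => bex W fun l => isFunc t l N) (and (mem z P)
      (and (ball P fun t => ball S fun s => neg (isSubset s t)) (fGen W K C G P))))

end Fml

open Fml

namespace R

open V Q Pool.Agent.Lib_helper27.ST Cardinal

section gen

variable {P : Type} [Preorder P]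

variable (P) in
/-- the name of `G` -/
noncomputable def GN : Name P :=
  mk3 {z : (ℕ × ℕ) × List Bool // z.1.1 ≤ z.2.length ∧ Gr z.1.1 z.1.2 z.2}
    (fun z => onm P z.1.1.1) (fun z => onm P z.1.1.2) (fun z => strN P z.1.2) fun _ _ => True

theorem fc_GN {n m : ℕ} {t : List Bool} (h : n ≤ t.length) (h' : Gr n m t) (p : P) :
    Fc p (app3 (GN P) (onm P n) (onm P m) (strN P t)) :=
  (fc_app3 down_true).2 (Loc.pure fun r _ => ⟨⟨((n, m), t), h, h'⟩, trivial, feq_refl _ _,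
    feq_refl _ _, feq_refl _ _⟩)

theorem fc_GN_conv {n m t : Name P} {p : P} (h : Fc p (app3 (GN P) n m t)) :
    Loc p fun r => ∃ (n' m' : ℕ) (t' : List Bool), n' ≤ t'.length ∧ Gr n' m' t' ∧
      feq n (onm P n') r ∧ feq m (onm P m') r ∧ feq t (strN P t') r := by
  refine ((fc_app3 down_true).1 h).imp ?_
  rintro r _ ⟨⟨⟨⟨n', m'⟩, t'⟩, h1, h2⟩, _, h3, h4, h5⟩
  exact ⟨n', m', t', h1, h2, h3, h4, h5⟩

theorem forces_str (p : P) : Fc p (fStr (oall P ℕ) (twoN P) (GN P)) := by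
  intro n m t
  refine (forces_imp nf_basic).2 fun q hq h => ?_
  refine forces_bex.2 ((fc_GN_conv h).imp ?_)
  rintro r _ ⟨n', m', t', h1, h2, h3, h4, h5⟩
  refine ⟨onm P t'.length, onm_mem_oall _ r, ?_, ?_⟩
  · exact isFunc_congr (feq_symm h5) (feq_refl _ r) (feq_refl _ r) (strN_func t' r)
  · intro r' hr' hmem
    have : t'.length < n' := onm_mem_iff.1 (fmem_congr_right (feq_mono hr' h3) hmem)
    omega

/-- the sum of a small set is small -/
theorem sum_bound {S : Name P} {k : ℕ} {p : P}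
    (h : Fc p (isSmall (oall P ℕ) (twoN P) (onm P k) S)) (T : Finset (List Bool))
    (hT : ∀ s ∈ T, fmem (strN P s) S p) : ∑ s ∈ T, (2 : ℝ)⁻¹ ^ s.length ≤ (2 : ℝ)⁻¹ ^ k := by
  classical
  set L := ∑ s ∈ T, s.length with hL
  have hlen : ∀ s ∈ T, s.length ≤ L := fun s hs =>
    Finset.single_le_sum (f := fun s : List Bool => s.length) (fun _ _ => Nat.zero_le _) hs
  have h1 : Fc p (imp (and (isPow (onm P L) (twoN P) (powN P L)) (and
      (isPow (onm P k) (twoN P) (powN P k)) (isCount S (powN P L) (powN P k) (cntN S L k))))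
      (ex fun f => isInj f (cntN S L k) (powN P L))) :=
    ((forces_ball nf_basic).1 h.2 (onm P L) p le_rfl (onm_mem_oall L p)) (powN P L) (powN P k)
      (cntN S L k)
  have h2 := (forces_imp nf_basic).1 h1 p le_rfl ⟨fc_isPow.2 (feq_refl _ _),
    fc_isPow.2 (feq_refl _ _), (fc_isCount (feq_refl _ _) (feq_refl _ _) h.1).2 (feq_refl _ _)⟩
  obtain ⟨q, hq, f, hf⟩ := (forces_ex.1 h2).exists
  -- the cardinal inequality
  have h3 := inj_card (ι := Σ s : T, (Fin (L - s.1.length) → Bool) × (Fin k → Bool))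
    (κ := Fin L → Bool) hf
    (fun z => tripN P (z.1.1, z.1.1 ++ List.ofFn z.2.1, List.ofFn z.2.2))
    (fun g => strN P (List.ofFn g)) (by
      rintro ⟨⟨s, hs⟩, g, b⟩
      refine fmem_cntN.2 (Loc.pure fun r hr => ⟨⟨(s, s ++ List.ofFn g, List.ofFn b), ?_, ?_, ?_⟩,
        fmem_mono (hr.trans hq) (hT s hs), feq_refl _ _⟩)
      · have := hlen s hs
        simp only [List.length_append, List.length_ofFn]
        omega
      · exact List.prefix_append _ _
      · simp) (by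
      intro y r hr hy
      refine (fmem_powN.1 hy).imp ?_
      rintro s _ ⟨t, ht, he⟩
      refine ⟨fun i => t[i.1]'(lt_of_lt_of_eq i.2 ht.symm), ?_⟩
      have : List.ofFn (fun i : Fin L => t[i.1]'(lt_of_lt_of_eq i.2 ht.symm)) = t := by
        apply List.ext_getElem
        · simp [ht]
        · intro n h1 h2
          simp
      rw [this]
      exact he) (by
      rintro ⟨⟨s, hs⟩, g, b⟩ ⟨⟨s', hs'⟩, g', b'⟩ r _ h4
      have h5 := tripN_inj h4
      simp only [Prod.mk.injEq] at h5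
      obtain ⟨rfl, h6, h7⟩ := h5
      obtain rfl := List.ofFn_injective (List.append_cancel_left h6)
      obtain rfl := List.ofFn_injective h7
      rfl)
  have h4 : ∑ s ∈ T, 2 ^ (L - s.length) * 2 ^ k ≤ 2 ^ L := by
    have e1 : Fintype.card (Σ s : T, (Fin (L - s.1.length) → Bool) × (Fin k → Bool)) =
        ∑ s ∈ T, 2 ^ (L - s.length) * 2 ^ k := by
      rw [Fintype.card_sigma, ← Finset.sum_coe_sort T (fun s => 2 ^ (L - s.length) * 2 ^ k)]
      refine Finset.sum_congr rfl fun s _ => ?_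
      simp
    have e2 : Fintype.card (Fin L → Bool) = 2 ^ L := by simp
    rw [e1, e2] at h3
    exact h3
  have h5 : (∑ s ∈ T, (2 : ℝ) ^ (L - s.length) * 2 ^ k) ≤ 2 ^ L := by exact_mod_cast h4
  have h6 : ∀ s ∈ T, (2 : ℝ)⁻¹ ^ s.length = (2 : ℝ) ^ (L - s.length) * 2 ^ k *
      ((2 : ℝ)⁻¹ ^ L * (2 : ℝ)⁻¹ ^ k) := by
    intro s hs
    have h7 := hlen s hs
    have h8 : (2 : ℝ) ^ L = 2 ^ (L - s.length) * 2 ^ s.length := by
      rw [← pow_add]
      congr 1
      omega
    have h9 : (2 : ℝ) ^ k ≠ 0 := by positivity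
    have h10 : (2 : ℝ) ^ s.length ≠ 0 := by positivity
    have h11 : (2 : ℝ) ^ (L - s.length) ≠ 0 := by positivity
    rw [inv_pow, inv_pow, inv_pow, h8]
    field_simp
  rw [Finset.sum_congr rfl h6, ← Finset.sum_mul]
  have h7 : (2 : ℝ)⁻¹ ^ k = 2 ^ L * ((2 : ℝ)⁻¹ ^ L * (2 : ℝ)⁻¹ ^ k) := by
    rw [← mul_assoc, ← mul_pow]
    norm_num
  refine le_of_le_of_eq ?_ h7.symm
  exact mul_le_mul_of_nonneg_right h5 (by positivity)

end gen

section

variable {Lab : Type} {E : Nms Om1 Om2 Lab}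

variable (E) in
/-- the name of the Cohen reals -/
noncomputable def CN : Name (Pc E) :=
  mk3 (Om1 × ℕ × ℕ) (fun z => onm (Pc E) z.1) (fun z => onm (Pc E) z.2.1)
    (fun z => onm (Pc E) z.2.2) fun z q => (Cnd.c q) (z.1, z.2.1) = z.2.2 + 1

theorem c_mono {p q : Pc E} (hq : q ≤ p) {x : Om1} {n i : ℕ}
    (h : (Cnd.c p) (x, n) = i + 1) : (Cnd.c q) (x, n) = i + 1 := by
  rw [(pc_le.1 hq).1 _ (by rw [h]; exact Nat.succ_ne_zero _), h]

theorem down_CN : Down (P := Pc E)
    (fun (z : Om1 × ℕ × ℕ) q => (Cnd.c q) (z.1, z.2.1) = z.2.2 + 1) :=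
  fun _ _ _ hq h => c_mono hq h

theorem fc_CN {x : Om1} {n i : ℕ} {p : Pc E} (h : (Cnd.c p) (x, n) = i + 1) :
    Fc p (app3 (CN E) (onm _ x) (onm _ n) (onm _ i)) :=
  (fc_app3 down_CN).2 (Loc.pure fun r hr => ⟨(x, n, i), c_mono hr h, feq_refl _ _, feq_refl _ _,
    feq_refl _ _⟩)

theorem fc_CN_conv {x : Om1} {n m : Name (Pc E)} {p : Pc E}
    (h : Fc p (app3 (CN E) (onm _ x) n m)) :
    Loc p fun r => ∃ n' i : ℕ, (Cnd.c r) (x, n') = i + 1 ∧ feq n (onm _ n') r ∧
      feq m (onm _ i) r := by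
  refine ((fc_app3 down_CN).1 h).imp ?_
  rintro r _ ⟨⟨x', n', i⟩, h1, h2, h3, h4⟩
  obtain rfl := onm_inj h2
  exact ⟨n', i, h1, h3, h4⟩

theorem forces_coh (p : Pc E) :
    Fc p (fun2 (oall (Pc E) Om1) (oall (Pc E) ℕ) (oall (Pc E) ℕ) (CN E)) := by
  refine (forces_ball nf_basic).2 fun a q hq ha => (forces_ball nf_basic).2 fun b r hr hb => ?_
  refine forces_bex.2 ?_
  refine ((fmem_oall.1 ha).mono hr).bind ?_
  rintro s hs ⟨x, hx⟩
  refine (fmem_oall.1 (fmem_mono hs hb)).bind ?_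
  rintro t ht ⟨n, hn⟩
  intro w hw
  obtain ⟨w', hw', hc⟩ := exists_cohen (E := E) w (x, n)
  obtain ⟨i, hi⟩ := Nat.exists_eq_succ_of_ne_zero hc
  have hww : @LE.le (Pc E) _ w' w := hw'
  refine ⟨w', hww, onm _ i, onm_mem_oall _ _, ?_, fun c => ?_⟩
  · exact app3_congr (feq_symm (feq_mono (hww.trans (hw.trans ht)) hx))
      (feq_symm (feq_mono (hww.trans hw) hn)) (feq_refl _ _) (fc_CN hi)
  · refine (forces_imp nf_basic).2 fun w2 hw2 h => ?_
    have h2 := app3_congr (feq_mono (hw2.trans (hww.trans (hw.trans ht))) hx)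
      (feq_mono (hw2.trans (hww.trans hw)) hn) (feq_refl c w2) h
    refine feq_dense ((fc_CN_conv h2).imp ?_)
    rintro w3 hw3 ⟨n', i', h3, h4, h5⟩
    obtain rfl := onm_inj h4
    have h6 : (Cnd.c w3) (x, n) = i + 1 := c_mono (hw3.trans hw2) hi
    have h7 : i' = i := by omega
    rw [← h7]
    exact h5

theorem exists_cohen_many (p : Cnd Om1 Om2 Lab) (x : Om1) (L : ℕ) :
    ∃ q, LE E ⊤ q p ∧ ∀ n < L, q.c (x, n) ≠ 0 := by
  induction L with
  | zero => exact ⟨p, LE.refl _ _, fun n hn => absurd hn (Nat.not_lt_zero n)⟩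
  | succ L ih =>
    obtain ⟨q, hq, h⟩ := ih
    obtain ⟨r, hr, h'⟩ := exists_cohen (E := E) q (x, L)
    refine ⟨r, hr.trans hq, fun n hn => ?_⟩
    rcases Nat.lt_succ_iff_lt_or_eq.1 hn with h1 | rfl
    · rw [hr.1 _ (h n h1)]
      exact h n h1
    · exact h'

/-- `s` is one of the strings of the cover of the null set at `x` -/
def SQ (x : Om1) (k : ℕ) (s : List Bool) (q : Pc E) : Prop :=
  ∃ n, k < n ∧ ∃ i, (Cnd.c q) (x, n) = i + 1 ∧ Gr n i s ∧ s.length = pr n i (n - 1) + 1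

theorem down_SQ (x : Om1) (k : ℕ) : Down (P := Pc E) (SQ x k) := by
  rintro s p q hq ⟨n, h1, i, h2, h3⟩
  exact ⟨n, h1, i, c_mono hq h2, h3⟩

variable (E) in
/-- the name of the cover of the null set at `x` -/
noncomputable def SN (x : Om1) (k : ℕ) : Name (Pc E) :=
  mkQ (List Bool) (strN (Pc E)) (SQ x k)

theorem le_pr (n i j : ℕ) : n ≤ pr n i j :=
  (Nat.left_le_pair n i).trans (Nat.left_le_pair _ j)

theorem pr_mono {n i j j' : ℕ} (h : j ≤ j') : pr n i j ≤ pr n i j' := by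
  rcases h.eq_or_lt with rfl | h
  · exact le_rfl
  · exact (Nat.pair_lt_pair_right _ h).le

theorem small_SN (x : Om1) (k : ℕ) (p : Pc E) :
    Fc p (isSmall (oall (Pc E) ℕ) (twoN (Pc E)) (onm (Pc E) k) (SN E x k)) := by
  have hS : Fc p (ball (SN E x k) fun s => isStr (oall (Pc E) ℕ) (twoN (Pc E)) s) := by
    refine (forces_ball nf_basic).2 fun s q hq hs => fc_isStr.2 ?_
    refine ((fmem_mkQ (down_SQ x k)).1 hs).imp ?_
    rintro r _ ⟨s', _, h⟩
    exact ⟨s', h⟩
  refine ⟨hS, ?_⟩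
  refine (fc_ball_oall ?_).2 fun L => ?_
  · intro q a b h
    exact DF.rel (fun z => feq_refl z q) (cv (all fun E => all fun V => all fun D =>
      imp (and (isPow 3 0 E) (and (isPow 1 0 V) (isCount 2 E V D))) (ex fun f => isInj f D E)) 4) 4
      (env [twoN (Pc E), onm (Pc E) k, SN E x k] a) (env [twoN (Pc E), onm (Pc E) k, SN E x k] b)
      (rel_env (r := fun x y => feq x y q) (.cons (feq_refl _ _) (.cons (feq_refl _ _)
        (.cons (feq_refl _ _) .nil))) h)
  intro X V D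
  refine (forces_imp nf_basic).2 fun q hq h => ?_
  have hX := fc_isPow.1 h.1
  have hV := fc_isPow.1 h.2.1
  have hD := (fc_isCount hX hV (Forces.mono nf_basic hq hS)).1 h.2.2
  refine forces_ex.2 ?_
  intro q1 hq1
  obtain ⟨r, hr, hc⟩ := exists_cohen_many (E := E) q1 x (L + 1)
  have hr1 : @LE.le (Pc E) _ r q1 := hr
  let c : ℕ → ℕ := fun n => r.c (x, n) - 1
  have hcn : ∀ n < L + 1, r.c (x, n) = c n + 1 := fun n hn => by
    have := hc n hn
    show r.c (x, n) = (r.c (x, n) - 1) + 1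
    omega
  obtain ⟨φ, hφ1, hφ2⟩ := count_null c k L
  have key : ∀ r' : Pc E, r' ≤ r → ∀ s : List Bool, s.length ≤ L → SQ x k s r' → Sk c k s := by
    rintro r' hr' s hs ⟨n, h1, i, h2, h3, h4⟩
    have hnL : n < L + 1 := by
      have := le_pr n i (n - 1)
      omega
    have h5 : (Cnd.c r') (x, n) = c n + 1 := c_mono hr' (hcn n hnL)
    have h6 : i = c n := by omega
    subst h6
    exact ⟨n, h1, h3, h4⟩
  have key' : ∀ r' : Pc E, r' ≤ r → ∀ s : List Bool, s.length ≤ L → Sk c k s → SQ x k s r' := by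
    rintro r' hr' s hs ⟨n, h1, h3, h4⟩
    have hnL : n < L + 1 := by
      have := le_pr n (c n) (n - 1)
      omega
    exact ⟨n, h1, c n, c_mono hr' (hcn n hnL), h3, h4⟩
  have hQ : Down (P := Pc E) (fun (_ : {z : Cx L k // Sk c k z.1.1}) _ => True) := down_true
  refine ⟨r, hr1, mkFn {z : Cx L k // Sk c k z.1.1} (fun z => tripN (Pc E) z.1.1)
    (fun z => strN (Pc E) (φ z.1.1)) fun _ _ => True, ?_⟩
  refine isInj_congr (feq_refl _ _) (feq_symm (feq_mono (hr1.trans hq1) hD))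
    (feq_symm (feq_mono (hr1.trans hq1) hX)) ?_
  refine fc_isInj hQ (fc_isFunc hQ ?_ ?_ ?_) ?_
  · rintro ⟨⟨z, hz1, hz2, hz3⟩, hz⟩ r' hr' _
    constructor
    · refine fmem_cntN.2 (Loc.pure fun r2 hr2 => ⟨⟨z, hz1, hz2, hz3⟩, ?_, feq_refl _ _⟩)
      exact fmem_mkQ_of (x := strN (Pc E)) (down_SQ x k)
        (key' r2 (hr2.trans hr') z.1 (hz2.length_le.trans_eq hz1) hz)
    · exact fmem_powN.2 (Loc.pure fun _ _ => ⟨φ z, hφ1 z hz hz1 hz2 hz3, feq_refl _ _⟩)
  · intro y r' hr' hy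
    refine (fmem_cntN.1 hy).bind ?_
    rintro r2 hr2 ⟨⟨z, hz1, hz2, hz3⟩, h1, h2⟩
    refine ((fmem_mkQ (down_SQ x k)).1 h1).imp ?_
    rintro r3 hr3 ⟨s, h3, h4⟩
    obtain rfl := strN_inj h4
    exact ⟨⟨⟨z, hz1, hz2, hz3⟩, key r3 (hr3.trans (hr2.trans hr')) z.1
      (hz2.length_le.trans_eq hz1) h3⟩, trivial, feq_mono hr3 h2⟩
  · rintro ⟨z, hz⟩ ⟨z', hz'⟩ r' _ _ _ h1
    have : z = z' := Subtype.ext (tripN_inj h1)
    subst this
    exact feq_refl _ _
  · rintro ⟨⟨z, hz1, hz2, hz3⟩, hz⟩ ⟨⟨z', hz1', hz2', hz3'⟩, hz'⟩ r' _ _ _ h1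
    have : z = z' := hφ2 ⟨hz, hz1, hz2, hz3⟩ ⟨hz', hz1', hz2', hz3'⟩ (strN_inj h1)
    subst this
    exact feq_refl _ _

theorem forces_null (p : Pc E) : Fc p (fNull (oall (Pc E) ℕ) (twoN (Pc E)) (oall (Pc E) Om1)
    (CN E) (GN (Pc E))) := by
  refine (fc_ball_oall ?_).2 fun x => (fc_ball_oall ?_).2 fun k => ?_
  · intro q a b h
    exact DF.rel (fun z => feq_refl z q) (cv (ball 0 fun k => ex fun S => and (isSmall 0 1 k S)
      (ball 0 fun n => imp (mem k n) (all fun m => all fun t =>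
      imp (and (app3 2 4 n m) (app3 3 n m t)) (bex S fun s => isSubset s t)))) 5) 5
      (env [oall (Pc E) ℕ, twoN (Pc E), CN E, GN (Pc E)] a)
      (env [oall (Pc E) ℕ, twoN (Pc E), CN E, GN (Pc E)] b)
      (rel_env (r := fun x y => feq x y q) (.cons (feq_refl _ _) (.cons (feq_refl _ _)
        (.cons (feq_refl _ _) (.cons (feq_refl _ _) .nil)))) h)
  · intro q a b h
    exact DF.rel (fun z => feq_refl z q) (cv (ex fun S => and (isSmall 0 1 5 S)
      (ball 0 fun n => imp (mem 5 n) (all fun m => all fun t =>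
      imp (and (app3 2 4 n m) (app3 3 n m t)) (bex S fun s => isSubset s t)))) 6) 6
      (env [oall (Pc E) ℕ, twoN (Pc E), CN E, GN (Pc E), onm (Pc E) x] a)
      (env [oall (Pc E) ℕ, twoN (Pc E), CN E, GN (Pc E), onm (Pc E) x] b)
      (rel_env (r := fun x y => feq x y q) (.cons (feq_refl _ _) (.cons (feq_refl _ _)
        (.cons (feq_refl _ _) (.cons (feq_refl _ _) (.cons (feq_refl _ _) .nil))))) h)
  refine forces_ex.2 (Loc.pure fun q hq => ⟨SN E x k, small_SN x k q, ?_⟩)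
  refine (forces_ball nf_basic).2 fun n r hr hn => ?_
  refine (forces_imp nf_basic).2 fun r1 hr1 hkn => ?_
  intro m t
  refine (forces_imp nf_basic).2 fun r2 hr2 h => ?_
  refine forces_bex.2 ?_
  refine (fc_CN_conv h.1).bind ?_
  rintro r3 hr3 ⟨n', i, h1, h2, h3⟩
  refine (fc_GN_conv (Forces.mono nf_basic hr3 h.2)).imp ?_
  rintro r4 hr4 ⟨n'', i', t', h4, h5, h6, h7, h8⟩
  obtain rfl := onm_inj (feq_trans (feq_symm (feq_mono hr4 h2)) h6)
  obtain rfl := onm_inj (feq_trans (feq_symm (feq_mono hr4 h3)) h7)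
  have hkn' : k < n' := by
    have h9 : fmem (onm (Pc E) k) n r1 := hkn
    exact onm_mem_iff.1 (fmem_congr_right h6
      (fmem_mono (hr4.trans (hr3.trans hr2)) h9))
  have hlast := h5 (n' - 1) (by omega)
  obtain ⟨hlt, _⟩ := List.getElem?_eq_some_iff.1 hlast
  refine ⟨strN (Pc E) (t'.take (pr n' i (n' - 1) + 1)), ?_, ?_⟩
  · refine fmem_mkQ_of (x := strN (Pc E)) (down_SQ x k) ⟨n', hkn', i, c_mono hr4 h1, ?_, ?_⟩
    · intro j hj
      rw [List.getElem?_take_of_lt (by
        have := pr_mono (n := n') (i := i) (show j ≤ n' - 1 by omega)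
        omega)]
      exact h5 j hj
    · rw [List.length_take]
      omega
  · exact isSubset_congr (feq_refl _ _) (feq_symm h8) (strN_sub.2 (List.take_prefix _ _))

end

end R

end Pool.Agent.Lib_helper27
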