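import Pool.Agent.Lib_helper27.R.Poset
import Pool.Agent.Lib_helper27.R.Blocks

/-!
# Extending and merging conditions
-/

set_option linter.unusedSectionVars false
set_option linter.unusedVariables false

namespace Pool.Agent.Lib_helper27.R

theorem hist_length (f : ℕ → ℕ) (n : ℕ) : (hist f n).length = n := by simp [hist]

section

variable {Lm Om Lab : Type} [LinearOrder Om] [WellFoundedLT Om] {E : Nms Lm Om Lab}

theorem exists_enumF [Nonempty Lab] (F : Finset Lab) {k : ℕ} (h : F.card ≤ k) :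
    ∃ g : ℕ → Lab, ∀ e ∈ F, ∃ j < k, g j = e := by
  classical
  obtain ⟨a⟩ := ‹Nonempty Lab›
  refine ⟨fun j => F.toList.getD j a, fun e he => ?_⟩
  obtain ⟨j, hj, he'⟩ := List.mem_iff_getElem.1 (Finset.mem_toList.2 he)
  refine ⟨j, (lt_of_lt_of_eq hj (Finset.length_toList F)).trans_le h, ?_⟩
  show F.toList.getD j a = e
  rw [List.getD_eq_getElem _ _ hj, he']

/-- new data at a coordinate -/
theorem exists_fill {ι : Type} {m k k' : ℕ} (hm : m ≤ k) (hk : k ≤ k') (I : Finset ι)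
    (f : ι → ℕ → ℕ → ℕ) (π : ℕ → List ℕ → ℕ) (hπ : ∀ i ∈ I, ∀ j < m, OneErr (π j) (f i j))
    (s₀ : List ℕ →₀ ℕ) (hs₀ : ∀ t, s₀ t ≠ 0 → t.length < bl k) (F : Finset Lab)
    (hF : F.card ≤ k') :
    ∃ d : Cd Lab, d.k = k' ∧ d.F = F ∧ (∀ t, s₀ t ≠ 0 → d.s t = s₀ t) ∧
      ∀ i ∈ I, ∀ j < m, ∀ l, k ≤ l → l < k' →
        ∃ n, bl l ≤ n ∧ n < bl (l + 1) ∧ d.s (hist (f i j) n) = f i j n + 1 := by
  obtain ⟨s, hs, hs'⟩ := exists_sigma m k k' hm I f π hπ
  refine ⟨⟨k', s₀ + s, F, ?_, hF⟩, rfl, rfl, ?_, ?_⟩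
  · intro t ht
    rw [Finsupp.add_apply] at ht
    by_cases h : s₀ t = 0
    · rw [h, zero_add] at ht
      exact (hs t ht).2
    · exact (hs₀ t h).trans_le (bl_mono hk)
  · intro t ht
    rw [Finsupp.add_apply]
    by_cases h : s t = 0
    · rw [h, add_zero]
    · exact absurd (hs t h).1 (not_le.2 (hs₀ t ht))
  · intro i hi j hj l h1 h2
    obtain ⟨n, h3, h4, h5⟩ := hs' i hi j hj l h1 h2
    refine ⟨n, h3, h4, ?_⟩
    rw [Finsupp.add_apply, h5]
    have h6 : s₀ (hist (f i j) n) = 0 := by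
      by_contra h
      have := hs₀ _ h
      rw [hist_length] at this
      exact absurd ((bl_mono h1).trans h3) (not_le.2 this)
    rw [h6, zero_add]

theorem gd_of_fill {η : Om} {q r p : Cnd Lm Om Lab} {m k' : ℕ} {g : ℕ → Lab} {u : Lab → ℕ → ℕ}
    (hr : LE E η q r) (hk : (q.a η).k = k') (hk' : (p.a η).k ≤ k')
    (hs : ∀ t, (p.a η).s t ≠ 0 → (q.a η).s t = (p.a η).s t) (hF : (p.a η).F ⊆ (q.a η).F)
    (hg : ∀ e ∈ (p.a η).F, ∃ j < m, g j = e)
    (hu : ∀ j < m, ∀ i < bl k', DecV E (LE E η) (g j) r i (u (g j) i))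
    (hd : ∀ j < m, ∀ l, (p.a η).k ≤ l → l < k' → ∃ n, bl l ≤ n ∧ n < bl (l + 1) ∧
      (q.a η).s (hist (u (g j)) n) = u (g j) n + 1) : GD E η q p := by
  rw [gd_eq]
  refine ⟨hk'.trans_eq hk.symm, hs, hF, ?_⟩
  intro e he l h1 h2 t ht
  rw [hk] at h2
  obtain ⟨j, hj, rfl⟩ := hg e he
  refine ⟨t, LE.refl _ _, u (g j), ?_, hd j hj l h1 h2⟩
  intro i hi
  exact (hu j hj i (hi.trans_le (bl_mono h2))).mono (ht.trans hr)

/-- one more block at `η` -/
theorem exists_incr [Nonempty Lab] (p : Cnd Lm Om Lab) (η : Om) :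
    ∃ q, LE E ⊤ q p ∧ (q.a η).k = (p.a η).k + 1 ∧ (q.a η).F = (p.a η).F := by
  classical
  obtain ⟨g, hg⟩ := exists_enumF (p.a η).F (p.a η).hF
  obtain ⟨t, ht, u, hu⟩ := exists_dec_many (E := E) (ξ := (η : WithTop Om))
    ((Finset.range (p.a η).k).image g) p (bl ((p.a η).k + 1))
  obtain ⟨d, hd1, hd2, hd3, hd4⟩ := exists_fill (Lab := Lab) (le_refl (p.a η).k)
    (Nat.le_succ (p.a η).k) ({()} : Finset Unit) (fun _ j => u (g j))
    (fun j t => u (g j) t.length) (fun i _ j _ => ⟨0, fun n _ => by simp only [hist_length]⟩)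
    (p.a η).s (p.a η).hs (p.a η).F ((p.a η).hF.trans (Nat.le_succ _))
  have hp' := piece_le ht ⊤
  have hpa : (piece η t p).a η = p.a η := piece_ge le_rfl t p
  refine ⟨setAt η d (piece η t p), (setAt_le ?_ ⊤).trans hp', ?_, ?_⟩
  · refine gd_of_fill (r := t) (m := (p.a η).k) (g := g) (u := u) (k' := (p.a η).k + 1)
      ((setAt_eq _ _ _).trans (piece_eq t p)) ?_ ?_ ?_ ?_ ?_ ?_ ?_
    · rw [setAt_self, hd1]
    · rw [hpa]
      exact Nat.le_succ _
    · rw [setAt_self, hpa]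
      exact hd3
    · rw [setAt_self, hpa, hd2]
    · rw [hpa]
      exact hg
    · intro j hj i hi
      exact hu (g j) (Finset.mem_image_of_mem g (Finset.mem_range.2 hj)) i hi
    · rw [setAt_self, hpa]
      exact fun j hj l h1 h2 => hd4 () (Finset.mem_singleton_self _) j hj l h1 h2
  · rw [setAt_self, hd1]
  · rw [setAt_self, hd2]

theorem exists_incr' [Nonempty Lab] (p : Cnd Lm Om Lab) (η : Om) (n : ℕ) :
    ∃ q, LE E ⊤ q p ∧ n ≤ (q.a η).k ∧ (q.a η).F = (p.a η).F := by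
  induction n with
  | zero => exact ⟨p, LE.refl _ _, Nat.zero_le _, rfl⟩
  | succ n ih =>
    obtain ⟨q, h1, h2, h3⟩ := ih
    obtain ⟨q', h4, h5, h6⟩ := exists_incr (E := E) q η
    exact ⟨q', h4.trans h1, by omega, h6.trans h3⟩

/-- a label can be added -/
theorem exists_add [Nonempty Lab] (p : Cnd Lm Om Lab) (η : Om) (e : Lab) :
    ∃ q, LE E ⊤ q p ∧ e ∈ (q.a η).F := by
  classical
  obtain ⟨q, h1, h2, h3⟩ := exists_incr' (E := E) p η ((p.a η).F.card + 1)
  have hc : (insert e (q.a η).F).card ≤ (q.a η).k := by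
    refine (Finset.card_insert_le _ _).trans ?_
    rw [h3]
    exact h2
  refine ⟨setAt η ⟨(q.a η).k, (q.a η).s, insert e (q.a η).F, (q.a η).hs, hc⟩ q,
    (setAt_le ?_ ⊤).trans h1, ?_⟩
  · rw [gd_eq]
    refine ⟨?_, ?_, ?_, ?_⟩
    · rw [setAt_self]
    · rw [setAt_self]
      exact fun _ _ => rfl
    · rw [setAt_self]
      exact Finset.subset_insert _ _
    · rw [setAt_self]
      intro e he l h4 h5
      exact absurd h4 (not_le.2 h5)
  · rw [setAt_self]
    exact Finset.mem_insert_self _ _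

/-- Cohen reals are total -/
theorem exists_cohen (p : Cnd Lm Om Lab) (x : Lm × ℕ) : ∃ q, LE E ⊤ q p ∧ q.c x ≠ 0 := by
  classical
  by_cases h : p.c x = 0
  · refine ⟨setC (p.c.update x 1) p, setC_le ?_ ⊤, ?_⟩
    · intro y hy
      have : y ≠ x := fun hyx => hy (hyx ▸ h)
      simp [Function.update_of_ne this]
    · simp [setC]
  · exact ⟨p, LE.refl _ _, h⟩

/-! ### Merging -/

/-- the empty condition -/
def zc : Cnd Lm Om Lab := ⟨0, 0⟩

/-- A family of conditions which form a Δ-system with root `D`, and which agree on the root except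
for the labels. -/
structure Fam {ι : Type} (p : ι → Cnd Lm Om Lab) (I : Finset ι) (D : Finset Om) (m : ℕ) : Prop where
  cc : ∀ i ∈ I, ∀ j ∈ I, ∀ x, (p i).c x ≠ 0 → (p j).c x ≠ 0 → (p i).c x = (p j).c x
  off : ∀ i ∈ I, ∀ j ∈ I, i ≠ j → ∀ ζ, ζ ∉ D → (p i).a ζ = 0 ∨ (p j).a ζ = 0
  onk : ∀ i ∈ I, ∀ j ∈ I, ∀ ζ ∈ D, ((p i).a ζ).k = ((p j).a ζ).k
  ons : ∀ i ∈ I, ∀ j ∈ I, ∀ ζ ∈ D, ((p i).a ζ).s = ((p j).a ζ).s
  bd : ∀ i ∈ I, ∀ ζ ∈ D, ((p i).a ζ).k ≤ m

open Classical in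
/-- the union of a family of conditions -/
noncomputable def join {ι : Type} (J : Finset ι) (p : ι → Cnd Lm Om Lab) : Cnd Lm Om Lab where
  c := Finsupp.onFinset (J.biUnion fun i => (p i).c.support)
    (fun x => if h : ∃ i ∈ J, (p i).c x ≠ 0 then (p h.choose).c x else 0) (by
      intro x hx
      by_cases h : ∃ i ∈ J, (p i).c x ≠ 0
      · rw [dif_pos h] at hx
        exact Finset.mem_biUnion.2 ⟨h.choose, h.choose_spec.1, Finsupp.mem_support_iff.2 hx⟩
      · rw [dif_neg h] at hx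
        exact (hx rfl).elim)
  a := Finsupp.onFinset (J.biUnion fun i => (p i).a.support)
    (fun x => if h : ∃ i ∈ J, (p i).a x ≠ 0 then (p h.choose).a x else 0) (by
      intro x hx
      by_cases h : ∃ i ∈ J, (p i).a x ≠ 0
      · rw [dif_pos h] at hx
        exact Finset.mem_biUnion.2 ⟨h.choose, h.choose_spec.1, Finsupp.mem_support_iff.2 hx⟩
      · rw [dif_neg h] at hx
        exact (hx rfl).elim)

theorem join_c {ι : Type} {J : Finset ι} {p : ι → Cnd Lm Om Lab} {i : ι} (hi : i ∈ J) {x : Lm × ℕ}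
    (h : ∀ j ∈ J, (p j).c x ≠ 0 → (p i).c x ≠ 0 → (p j).c x = (p i).c x) (hx : (p i).c x ≠ 0) :
    (join J p).c x = (p i).c x := by
  have hex : ∃ i ∈ J, (p i).c x ≠ 0 := ⟨i, hi, hx⟩
  rw [join, Finsupp.onFinset_apply, dif_pos hex]
  exact h _ hex.choose_spec.1 hex.choose_spec.2 hx

theorem join_a {ι : Type} {J : Finset ι} {p : ι → Cnd Lm Om Lab} {i : ι} (hi : i ∈ J) {x : Om}
    (h : ∀ j ∈ J, j ≠ i → (p j).a x = 0 ∨ (p i).a x = 0) (hx : (p i).a x ≠ 0) :
    (join J p).a x = (p i).a x := by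
  have hex : ∃ i ∈ J, (p i).a x ≠ 0 := ⟨i, hi, hx⟩
  rw [join, Finsupp.onFinset_apply, dif_pos hex]
  by_cases hj : hex.choose = i
  · rw [hj]
  · rcases h _ hex.choose_spec.1 hj with h1 | h1
    · exact (hex.choose_spec.2 h1).elim
    · exact (hx h1).elim

theorem gd_join {ι : Type} {J : Finset ι} {p : ι → Cnd Lm Om Lab} {i : ι} (hi : i ∈ J) {ζ : Om}
    (h : ∀ j ∈ J, j ≠ i → (p j).a ζ = 0 ∨ (p i).a ζ = 0) {q : Cnd Lm Om Lab}
    (hq : q.a ζ = (join J p).a ζ) : GD E ζ q (p i) := by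
  by_cases hx : (p i).a ζ = 0
  · exact gd_zero hx
  · exact gd_same (hq.trans (join_a hi h hx))

/-- The merging lemma. -/
theorem merge [Nonempty Lab] (m d N : ℕ) : ∃ R : ℕ, ∀ {ι : Type} (p : ι → Cnd Lm Om Lab)
    (I : Finset ι) (D : Finset Om), D.card = d → R ≤ I.card → Fam p I D m →
    ∃ J ⊆ I, N ≤ J.card ∧ ∃ q, ∀ i ∈ J, LE E ⊤ q (p i) := by
  classical
  induction d generalizing N with
  | zero =>
    refine ⟨N, fun {ι} p I D hD hI hF => ⟨I, subset_rfl, hI, join I p, fun i hi => ?_⟩⟩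
    rw [Finset.card_eq_zero] at hD
    subst hD
    refine ⟨fun x hx => join_c hi (fun j hj h1 h2 => hF.cc j hj i hi x h1 h2) hx, fun ζ _ => ?_⟩
    exact gd_join hi (fun j hj hji => hF.off j hj i hi hji ζ (Finset.notMem_empty ζ)) rfl
  | succ d ih =>
    obtain ⟨R₁, hR₁⟩ := comb_multi m N
    obtain ⟨R, hR⟩ := ih R₁
    refine ⟨max R 1, fun {ι} p I D hD hI hF => ?_⟩
    have hDne : D.Nonempty := by
      rw [← Finset.card_pos, hD]
      exact Nat.succ_pos d
    have hIne : I.Nonempty := by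
      rw [← Finset.card_pos]
      exact lt_of_lt_of_le Nat.one_pos ((le_max_right _ _).trans hI)
    obtain ⟨i₀, hi₀⟩ := hIne
    set η := D.max' hDne with hη
    have hηD : η ∈ D := D.max'_mem hDne
    have hmax : ∀ ζ ∈ D, ζ ≤ η := fun ζ hζ => D.le_max' ζ hζ
    obtain ⟨J₁, hJ₁, hJ₁R, q₁, hq₁⟩ := hR (fun i => piece η (p i) zc) I (D.erase η)
      (by rw [Finset.card_erase_of_mem hηD, hD]; rfl) ((le_max_left _ _).trans hI)
      { cc := fun i hi j hj x h1 h2 => hF.cc i hi j hj x h1 h2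
        off := by
          intro i hi j hj hij ζ hζ
          by_cases h : ζ < η
          · simp only [piece_lt h]
            exact hF.off i hi j hj hij ζ fun hcon => hζ (Finset.mem_erase.2 ⟨h.ne, hcon⟩)
          · left
            simp only [piece_ge (not_lt.1 h)]
            rfl
        onk := by
          intro i hi j hj ζ hζ
          have h1 := Finset.mem_erase.1 hζ
          have h : ζ < η := lt_of_le_of_ne (hmax ζ h1.2) h1.1
          simp only [piece_lt h]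
          exact hF.onk i hi j hj ζ h1.2
        ons := by
          intro i hi j hj ζ hζ
          have h1 := Finset.mem_erase.1 hζ
          have h : ζ < η := lt_of_le_of_ne (hmax ζ h1.2) h1.1
          simp only [piece_lt h]
          exact hF.ons i hi j hj ζ h1.2
        bd := by
          intro i hi ζ hζ
          have h1 := Finset.mem_erase.1 hζ
          have h : ζ < η := lt_of_le_of_ne (hmax ζ h1.2) h1.1
          simp only [piece_lt h]
          exact hF.bd i hi ζ h1.2 }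
    -- the labels at `η`
    set k := ((p i₀).a η).k with hk
    have hki : ∀ i ∈ I, ((p i).a η).k = k := fun i hi => hF.onk i hi i₀ hi₀ η hηD
    have hsi : ∀ i ∈ I, ((p i).a η).s = ((p i₀).a η).s := fun i hi => hF.ons i hi i₀ hi₀ η hηD
    have hkm : k ≤ m := hF.bd i₀ hi₀ η hηD
    choose g hg using fun i : ι => exists_enumF ((p i).a η).F ((p i).a η).hF
    obtain ⟨r, hr, u, hu⟩ := exists_dec_many (E := E) (ξ := (η : WithTop Om))
      (J₁.biUnion fun i => (Finset.range k).image (g i)) q₁ (bl (k + N * k))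
    obtain ⟨J₂, hJ₂, hJ₂N, π, hπ⟩ := hR₁ J₁ (fun i j => u (g i j)) hJ₁R
    obtain ⟨J, hJ, hJN⟩ := Finset.exists_subset_card_eq hJ₂N
    have hJI : ∀ i ∈ J, i ∈ I := fun i hi => hJ₁ (hJ₂ (hJ hi))
    obtain ⟨dd, hd1, hd2, hd3, hd4⟩ := exists_fill (Lab := Lab) (le_refl k)
      (Nat.le_add_right k (N * k)) J (fun i j => u (g i j)) π
      (fun i hi j hj => hπ i (hJ hi) j (hj.trans_le hkm)) ((p i₀).a η).s ((p i₀).a η).hs
      (J.biUnion fun i => ((p i).a η).F) (by
        refine Finset.card_biUnion_le.trans ?_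
        refine (Finset.sum_le_card_nsmul J _ k fun i hi => ?_).trans ?_
        · exact ((p i).a η).hF.trans_eq (hki i (hJI i hi))
        · rw [hJN, smul_eq_mul]
          exact Nat.le_add_left _ _)
    set q₂ := piece η r (join J p) with hq₂
    have h2r : LE E η (setAt η dd q₂) r := (setAt_eq _ _ _).trans (piece_eq _ _)
    refine ⟨J, fun i hi => hJI i hi, hJN.ge, setAt η dd q₂, fun i hi => ?_⟩
    have hiI := hJI i hi
    have h1 : LE E η q₁ (p i) := ((hq₁ i (hJ₂ (hJ hi))).mono le_top).trans (piece_eq _ _)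
    have h3 : LE E η (setAt η dd q₂) (p i) := h2r.trans (hr.trans h1)
    refine ⟨h3.1, fun ζ _ => ?_⟩
    rcases lt_trichotomy ζ η with hlt | heq | hgt
    · exact h3.2 ζ (WithTop.coe_lt_coe.2 hlt)
    · rw [heq]
      refine gd_of_fill (r := r) (m := k) (g := g i) (u := u) (k' := k + N * k) h2r ?_ ?_ ?_ ?_
        ?_ ?_ ?_
      · rw [setAt_self, hd1]
      · rw [hki i hiI]
        exact Nat.le_add_right _ _
      · rw [setAt_self, hsi i hiI]
        exact hd3
      · rw [setAt_self, hd2]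
        exact Finset.subset_biUnion_of_mem (fun i => ((p i).a η).F) hi
      · intro e he
        obtain ⟨j, hj, hje⟩ := hg i e he
        exact ⟨j, hj.trans_eq (hki i hiI), hje⟩
      · intro j hj n hn
        refine hu (g i j) (Finset.mem_biUnion.2 ⟨i, hJ₂ (hJ hi),
          Finset.mem_image_of_mem (g i) (Finset.mem_range.2 hj)⟩) n hn
      · rw [setAt_self, hki i hiI]
        exact fun j hj l h4 h5 => hd4 i hi j hj l h4 h5
    · refine gd_join hi (fun j hj hji => hF.off j (hJI j hj) i hiI hji ζ fun hcon => ?_) ?_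
      · exact absurd (hmax ζ hcon) (not_le.2 hgt)
      · rw [setAt_ne hgt.ne', hq₂, piece_ge hgt.le]

end

end Pool.Agent.Lib_helper27.R
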