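import Pool.Agent.Lib_helper27.R.Stmt
import Pool.Agent.Lib_helper27.Q.Norm
import Pool.Agent.Lib_helper27.Found

/-!
# Topology and selections inside a model of ZFC
-/

set_option linter.unusedSectionVars false
set_option linter.unusedVariables false

namespace Pool.Agent.Lib_helper27

universe u v w v'

open Fml

namespace ST

variable {M : Type u} [SetStr M] [ZFC M]

/-- `f` is (the graph of) a function from `a` to `b`. -/
def IsFn (f a b : M) : Prop :=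
  (∀ z, z ∈ f → ∃ x, x ∈ a ∧ ∃ y, y ∈ b ∧ z = opair x y) ∧
    (∀ x, x ∈ a → ∃ y, y ∈ b ∧ opair x y ∈ f) ∧
    (∀ x y y', opair x y ∈ f ∧ opair x y' ∈ f → y = y')

@[fun_prop]
theorem dbl_isFn {Γ : Type v} [Ctx M Γ] {f g h : Γ → M} (hf : Dbl M f) (hg : Dbl M g)
    (hh : Dbl M h) : Dbl M (fun γ => IsFn (f γ) (g γ) (h γ)) := by
  unfold IsFn
  fun_prop

theorem isFn_graph {a b : M} {φ : M → M} (hφ : Dbl M φ) (h1 : ∀ x, x ∈ a → φ x ∈ b) :
    IsFn (graph φ a) a b := by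
  refine ⟨?_, ?_, ?_⟩
  · intro z hz
    obtain ⟨x, hx, rfl⟩ := (mem_graph hφ).1 hz
    exact ⟨x, hx, φ x, h1 x hx, rfl⟩
  · intro x hx
    exact ⟨φ x, h1 x hx, (opair_mem_graph hφ).2 ⟨hx, rfl⟩⟩
  · rintro x y y' ⟨h3, h4⟩
    rw [← ((opair_mem_graph hφ).1 h3).2, ← ((opair_mem_graph hφ).1 h4).2]

theorem IsFn.fapp_eq {f a b x y : M} (h : IsFn f a b) (hxy : opair x y ∈ f) :
    fapp f x = y := iota_eq hxy fun _ h' => h.2.2 _ _ _ ⟨h', hxy⟩

theorem IsFn.fapp_mem {f a b x : M} (h : IsFn f a b) (hx : x ∈ a) : fapp f x ∈ b := by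
  obtain ⟨y, hy, hxy⟩ := h.2.1 x hx
  rw [h.fapp_eq hxy]
  exact hy

theorem IsFn.opair_fapp {f a b x : M} (h : IsFn f a b) (hx : x ∈ a) :
    opair x (fapp f x) ∈ f := by
  obtain ⟨y, hy, hxy⟩ := h.2.1 x hx
  rw [h.fapp_eq hxy]
  exact hxy

/-! ### The natural numbers -/

theorem mem_omega_trans {m n : M} (hn : n ∈ (omega : M)) (hm : m ∈ n) : m ∈ (omega : M) :=
  isOrd_omega.trans hn hm

theorem nat_trans {k m n : M} (hn : n ∈ (omega : M)) (hm : m ∈ n) (hk : k ∈ m) : k ∈ n :=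
  (isOrd_omega.mem hn).trans hm hk

theorem nat_tri {m n : M} (hm : m ∈ (omega : M)) (hn : n ∈ (omega : M)) :
    m ∈ n ∨ m = n ∨ n ∈ m := isOrd_omega.tri hm hn

/-- `m ≤ n` is written `¬ n ∈ m` -/
theorem nat_le_iff {m n : M} (hm : m ∈ (omega : M)) (hn : n ∈ (omega : M)) :
    ¬ n ∈ m ↔ m ∈ succ n := by
  rw [mem_succ]
  constructor
  · intro h
    rcases nat_tri hm hn with h1 | h1 | h1
    · exact Or.inl h1
    · exact Or.inr h1
    · exact (h h1).elim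
  · rintro (h | rfl)
    · exact mem_asymm h
    · exact mem_irrefl _

theorem succ_mem_succ {m n : M} (hn : n ∈ (omega : M)) (h : m ∈ n) : succ m ∈ succ n := by
  have hm := mem_omega_trans hn h
  rcases nat_tri (succ_mem_omega hm) (succ_mem_omega hn) with h1 | h1 | h1
  · exact h1
  · have := ST.succ_inj h1
    subst this
    exact (mem_irrefl _ h).elim
  · rcases mem_succ.1 h1 with h2 | h2
    · rcases mem_succ.1 (show n ∈ succ m from nat_trans (succ_mem_omega hm) h1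
        (mem_succ.2 (Or.inr rfl))) with h3 | h3
      · exact (mem_asymm h h3).elim
      · exact (mem_irrefl _ (h3 ▸ h)).elim
    · have : n ∈ m := h2 ▸ mem_succ.2 (Or.inr rfl)
      exact (mem_asymm h this).elim

theorem nat_cases {n : M} (hn : n ∈ (omega : M)) :
    n = empty ∨ ∃ m, m ∈ (omega : M) ∧ n = succ m := by
  rcases (mem_omega.1 hn).zero_or_succ with h | ⟨m, hm, h⟩
  · exact Or.inl h
  · exact Or.inr ⟨m, mem_omega.2 hm, h⟩

/-- least element -/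
theorem nat_least {Φ : M → Prop} (hΦ : Dbl M Φ) {n : M} (hn : n ∈ (omega : M)) (h : Φ n) :
    ∃ m, m ∈ (omega : M) ∧ Φ m ∧ ∀ k, k ∈ m → ¬ Φ k := by
  obtain ⟨m, hm, h1, h2⟩ := exists_least (Φ := fun m => m ∈ (omega : M) ∧ Φ m) (by fun_prop)
    (isOrd_omega.mem hn) ⟨hn, h⟩
  exact ⟨m, h1.1, h1.2, fun k hk hΦk => h2 k hk ⟨mem_omega_trans h1.1 hk, hΦk⟩⟩

/-- a definable function on a natural number with values in `ω` is bounded -/
theorem nat_bdd {f : M → M} (hf : Dbl M f) {n : M} (hn : n ∈ (omega : M))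
    (h : ∀ i, i ∈ n → f i ∈ (omega : M)) : ∃ b, b ∈ (omega : M) ∧ ∀ i, i ∈ n → f i ∈ b := by
  refine omega_induction (Φ := fun n => (∀ i, i ∈ n → f i ∈ (omega : M)) →
    ∃ b, b ∈ (omega : M) ∧ ∀ i, i ∈ n → f i ∈ b) (by fun_prop) ?_ ?_ hn h
  · exact fun _ => ⟨empty, empty_mem_omega, fun i hi => (not_mem_empty i hi).elim⟩
  · intro n hn ih h
    obtain ⟨b, hb, hb'⟩ := ih fun i hi => h i (mem_succ.2 (Or.inl hi))
    obtain ⟨k, hk, hk1, hk2⟩ := nat_max hb (succ_mem_omega (h n (mem_succ.2 (Or.inr rfl))))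
    refine ⟨k, hk, fun i hi => ?_⟩
    rcases mem_succ.1 hi with hi | rfl
    · exact hk1 _ (hb' i hi)
    · exact hk2 _ (mem_succ.2 (Or.inr rfl))

/-- Recursion on `ω`. -/
theorem omega_rec {H : M → M → M} (hH : Dbl M (fun z : M × M => H z.1 z.2)) (a : M) :
    ∃ F : M → M, Dbl M F ∧ F empty = a ∧ ∀ n, n ∈ (omega : M) → F (succ n) = H n (F n) := by
  classical
  let G : M → M → M := fun x g => if x = empty then a else H (sUnion x) (fapp g (sUnion x))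
  have hG : Dbl M (fun z : M × M => G z.1 z.2) := by
    show Dbl M (fun z : M × M => if z.1 = empty then a else H (sUnion z.1) (fapp z.2 (sUnion z.1)))
    have h1 : Dbl M (fun z : M × M => H (sUnion z.1) (fapp z.2 (sUnion z.1))) :=
      Dbl.comp (f := fun z : M × M => (sUnion z.1, fapp z.2 (sUnion z.1)))
        (g := fun z : M × M => H z.1 z.2) (by fun_prop) hH
    convert! Dbl_ite (M := M) (p := fun z : M × M => z.1 = empty) (f := fun _ : M × M => a)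
      (g := fun z : M × M => H (sUnion z.1) (fapp z.2 (sUnion z.1)))
      (by fun_prop) (by fun_prop) h1 using 1
  have hD := recData_ord hG
  have hF := hD.dbl_recF
  have hpreds : ∀ n : M, IsOrd n → preds (fun y x : M => IsOrd x ∧ y ∈ x) n = n := fun n hn =>
    ext fun z => by rw [hD.mem_preds]; simp [hn]
  refine ⟨_, hF, ?_, ?_⟩
  · rw [hD.recF_spec]
    exact if_pos rfl
  · intro n hn
    rw [hD.recF_spec, hpreds _ (isOrd_omega.mem (succ_mem_omega hn))]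
    have hne : succ n ≠ empty := fun h => not_mem_empty n (h ▸ mem_succ.2 (Or.inr rfl))
    have hu : sUnion (succ n) = n := by
      refine ext fun z => ?_
      rw [mem_sUnion]
      constructor
      · rintro ⟨y, hy, hz⟩
        rcases mem_succ.1 hy with hy | rfl
        · exact nat_trans hn hy hz
        · exact hz
      · intro hz
        exact ⟨n, mem_succ.2 (Or.inr rfl), hz⟩
    show (if succ n = empty then a else H (sUnion (succ n)) (fapp (graph _ (succ n))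
      (sUnion (succ n)))) = _
    rw [if_neg hne, hu, fapp_graph hF (mem_succ.2 (Or.inr rfl))]

/-! ### Topologies -/

/-- `T` is closed under binary intersections -/
def InterCl (T : M) : Prop := ∀ u v, u ∈ T → v ∈ T → ∃ w, w ∈ T ∧ ∀ x, x ∈ w ↔ x ∈ u ∧ x ∈ v

/-- `T` is a topology on `Y` -/
structure TopM (Y T : M) : Prop where
  sub : ∀ u, u ∈ T → ∀ x, x ∈ u → x ∈ Y
  univ : Y ∈ T
  inter : InterCl T
  union : ∀ A : M, (∀ u, u ∈ A → u ∈ T) → ∃ w, w ∈ T ∧ ∀ x, x ∈ w ↔ ∃ u, u ∈ A ∧ x ∈ u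

/-- the topology `T` has a countable base -/
def SecM (T : M) : Prop := ∃ B : M, (∀ b, b ∈ B → b ∈ T) ∧ Inj B omega ∧
  ∀ u, u ∈ T → ∀ x, x ∈ u → ∃ b, b ∈ B ∧ x ∈ b ∧ ∀ y, y ∈ b → y ∈ u

/-- `c` is an open cover of `X` -/
def OpenCover (T X c : M) : Prop :=
  (∃ u, u ∈ c) ∧ (∀ u, u ∈ c → u ∈ T) ∧ ∀ x, x ∈ X → ∃ u, u ∈ c ∧ x ∈ u

/-- the Rothberger property -/
def Roth (T X : M) : Prop := ∀ Q c : M, (IsFn c omega Q ∧ ∀ n v, opair n v ∈ c → OpenCover T X v) →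
  ∃ g, IsFn g omega T ∧ (∀ n v u, opair n v ∈ c ∧ opair n u ∈ g → u ∈ v) ∧
    ∀ x, x ∈ X → ∃ n, n ∈ (omega : M) ∧ ∃ u, opair n u ∈ g ∧ x ∈ u

@[fun_prop]
theorem dbl_openCover {Γ : Type v} [Ctx M Γ] {f g h : Γ → M} (hf : Dbl M f) (hg : Dbl M g)
    (hh : Dbl M h) : Dbl M (fun γ => OpenCover (f γ) (g γ) (h γ)) := by
  unfold OpenCover
  fun_prop

@[fun_prop]
theorem dbl_roth {Γ : Type v} [Ctx M Γ] {f g : Γ → M} (hf : Dbl M f) (hg : Dbl M g) :
    Dbl M (fun γ => Roth (f γ) (g γ)) := by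
  unfold Roth
  fun_prop

theorem holds_isTop {Y T : M} : Holds (EE M) (isTop Y T) ↔ TopM Y T := by
  unfold isTop isUnion
  simp only [holds_and, holds_ball, holds_isSubset, mem_def, holds_mem, holds_bex, holds_all,
    holds_iff, holds_imp]
  constructor
  · rintro ⟨h1, h2, h3, h4⟩
    exact ⟨h1, h2, fun u v hu hv => h3 u hu v hv, h4⟩
  · intro h
    exact ⟨h.sub, h.univ, fun u hu v hv => h.inter u v hu hv, h.union⟩

theorem holds_isSecond {T : M} : Holds (EE M) (isSecondCountable omega T) ↔ SecM T := by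
  unfold isSecondCountable SecM Inj
  simp only [holds_and, holds_ball, holds_isSubset, mem_def, holds_mem, holds_bex, holds_ex,
    holds_isInj]

theorem holds_isOpenCover {T X c : M} : Holds (EE M) (isOpenCover T X c) ↔ OpenCover T X c := by
  unfold isOpenCover OpenCover
  simp only [holds_and, holds_ball, holds_isSubset, mem_def, holds_mem, holds_bex, holds_ex]

theorem holds_isRoth {T X : M} : Holds (EE M) (isRothberger omega T X) ↔ Roth T X := by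
  unfold isRothberger Roth IsFn
  simp only [holds_and, holds_ball, mem_def, holds_mem, holds_bex, holds_ex, holds_all,
    holds_imp, holds_isFunc, holds_app, holds_isOpenCover]

/-- selections from definable sequences of covers -/
theorem Roth.sel {T X : M} (hX : Roth T X) {c : M → M} (hc : Dbl M c)
    (h : ∀ n, n ∈ (omega : M) → OpenCover T X (c n)) :
    ∃ g : M → M, Dbl M g ∧ (∀ n, n ∈ (omega : M) → g n ∈ c n ∧ g n ∈ T) ∧
      ∀ x, x ∈ X → ∃ n, n ∈ (omega : M) ∧ x ∈ g n := by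
  obtain ⟨g, hg, h1, h2⟩ := hX (image c omega) (graph c omega)
    ⟨isFn_graph hc fun x hx => (mem_image hc).2 ⟨x, hx, rfl⟩, by
      intro n v hv
      obtain ⟨hn, rfl⟩ := (opair_mem_graph hc).1 hv
      exact h n hn⟩
  refine ⟨fapp g, by fun_prop, fun n hn => ⟨?_, hg.fapp_mem hn⟩, fun x hx => ?_⟩
  · exact h1 n (c n) _ ⟨(opair_mem_graph hc).2 ⟨hn, rfl⟩, hg.opair_fapp hn⟩
  · obtain ⟨n, hn, u, hu, hxu⟩ := h2 x hx
    exact ⟨n, hn, by rw [hg.fapp_eq hu]; exact hxu⟩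

/-- finite intersections: if `x` belongs to the open sets `O i`, `i ∈ n`, then there is an open set
containing `x` and contained in all of them -/
theorem fin_inter {T : M} (hT : InterCl T) {O : M → M} (hO : Dbl M O) {n x U₀ : M}
    (hU₀ : U₀ ∈ T) (hx₀ : x ∈ U₀) (hn : n ∈ (omega : M)) (h : ∀ i, i ∈ n → O i ∈ T ∧ x ∈ O i) :
    ∃ U, U ∈ T ∧ x ∈ U ∧ ∀ i, i ∈ n → ∀ y, y ∈ U → y ∈ O i := by
  refine omega_induction (Φ := fun n => (∀ i, i ∈ n → O i ∈ T ∧ x ∈ O i) →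
    ∃ U, U ∈ T ∧ x ∈ U ∧ ∀ i, i ∈ n → ∀ y, y ∈ U → y ∈ O i) (by fun_prop) ?_ ?_ hn h
  · exact fun _ => ⟨U₀, hU₀, hx₀, fun i hi => (not_mem_empty i hi).elim⟩
  · intro n hn ih h
    obtain ⟨U, hU, hxU, hU'⟩ := ih fun i hi => h i (mem_succ.2 (Or.inl hi))
    obtain ⟨h1, h2⟩ := h n (mem_succ.2 (Or.inr rfl))
    obtain ⟨w, hw, hw'⟩ := hT U (O n) hU h1
    refine ⟨w, hw, (hw' x).2 ⟨hxU, h2⟩, fun i hi y hy => ?_⟩
    rcases mem_succ.1 hi with hi | rfl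
    · exact hU' i hi y ((hw' y).1 hy).1
    · exact ((hw' y).1 hy).2

/-! ### Prediction -/

/-- What the forcing gives about prediction. `τ` is (the graph of) a function `ω × ω → ω`,
`R4 A ν j y v` says that `(y, v)` belongs to the finite set `A(ν, j)`. -/
structure PredSys (K τ A r : M) : Prop where
  root : r ∈ (omega : M)
  tau : ∀ ν, ν ∈ (omega : M) → ∀ j, j ∈ (omega : M) → ∃ ν' : M, ν' ∈ (omega : M) ∧
    opair (opair ν j) ν' ∈ τ ∧ ∀ ν'', opair (opair ν j) ν'' ∈ τ → ν'' = ν'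
  fin : ∀ ν, ν ∈ (omega : M) → ∀ j, j ∈ (omega : M) → ∃ n, n ∈ (omega : M) ∧ ∀ y v,
    R4 A ν j y v → y ∈ n ∧ v ∈ n
  cover : ∀ g : M, (∀ y, y ∈ (omega : M) → ∃ v, v ∈ (omega : M) ∧ opair y v ∈ g ∧
    ∀ v', opair y v' ∈ g → v' = v) → ∀ ν, ν ∈ (omega : M) → ∃ j, j ∈ (omega : M) ∧ ∀ y v,
    R4 A ν j y v → opair y v ∈ g
  pred : ∀ Φ : M, (∀ ξ, ξ ∈ K → ∀ l, l ∈ (omega : M) → ∃ j, j ∈ (omega : M) ∧
    opair (opair ξ l) j ∈ Φ ∧ ∀ j', opair (opair ξ l) j' ∈ Φ → j' = j) →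
    ∃ p : M, (∀ y, y ∈ (omega : M) → ∃ v, v ∈ (omega : M) ∧ opair y v ∈ p ∧
      ∀ v', opair y v' ∈ p → v' = v) ∧
    ∀ ξ, ξ ∈ K → ∀ s : M, ((∀ l, l ∈ (omega : M) → ∃ ν, ν ∈ (omega : M) ∧ opair l ν ∈ s ∧
      ∀ ν', opair l ν' ∈ s → ν' = ν) ∧ opair empty r ∈ s ∧
      ∀ l, l ∈ (omega : M) → ∀ ν j ν', opair l ν ∈ s → opair (opair ξ l) j ∈ Φ →
        opair (opair ν j) ν' ∈ τ → opair (succ l) ν' ∈ s) →
      ∃ l₀, l₀ ∈ (omega : M) ∧ ∀ l, l ∈ (omega : M) → ¬ l ∈ l₀ → ∃ ν j y v, opair l ν ∈ s ∧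
        opair (opair ξ l) j ∈ Φ ∧ R4 A ν j y v ∧ opair y v ∈ p

/-! ### Measure -/

/-- `1` -/
noncomputable def one : M := upair empty empty

/-- What the forcing gives about measure. `R3 C ξ n m` says `c_ξ(n) = m`, and `R3 G n m t` says that
the string `t` belongs to `G(n, m)`. -/
structure MeasSys (K C G : M) : Prop where
  coh : ∀ ξ, ξ ∈ K → ∀ n, n ∈ (omega : M) → ∃ m, m ∈ (omega : M) ∧ opair (opair ξ n) m ∈ C ∧
    ∀ m', opair (opair ξ n) m' ∈ C → m' = m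
  str : ∀ n m t, opair (opair n m) t ∈ G → ∃ l, l ∈ (omega : M) ∧ IsFn t l two ∧ ¬ l ∈ n
  null : ∀ ξ, ξ ∈ K → ∀ k, k ∈ (omega : M) → ∃ S : M, Holds (EE M) (isSmall omega two k S) ∧
    ∀ n, n ∈ (omega : M) → k ∈ n → ∀ m t, opair (opair ξ n) m ∈ C → opair (opair n m) t ∈ G →
      ∃ s, s ∈ S ∧ ∀ z, z ∈ s → z ∈ t
  pos : ∀ S : M, Holds (EE M) (isSmall omega two one S) → ∃ P : M,
    (∀ t, t ∈ P → ∃ l, l ∈ (omega : M) ∧ IsFn t l two) ∧ empty ∈ P ∧
    (∀ t, t ∈ P → ∀ s, s ∈ S → ¬ ∀ z, z ∈ s → z ∈ t) ∧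
    ∃ ξ, ξ ∈ K ∧ ∀ t, t ∈ P → ∀ k, k ∈ (omega : M) → ∃ n, n ∈ (omega : M) ∧ ¬ n ∈ k ∧
      ∃ t', t' ∈ P ∧ (∀ z, z ∈ t → z ∈ t') ∧ ∃ m, opair (opair ξ n) m ∈ C ∧
        opair (opair n m) t' ∈ G

end ST

end Pool.Agent.Lib_helper27
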