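import Pool.Agent.Lib_helper27.R.Ccc
import Pool.Agent.Lib_helper27.R.Top
import Pool.Agent.Lib_helper27.Q.SysF

/-!
# Names of relations
-/

set_option linter.unusedSectionVars false
set_option linter.unusedVariables false

namespace Pool.Agent.Lib_helper27

universe u v

namespace Fml

variable {U : Type v}

/-- `((a, b), c) ∈ S` -/
def app3 (S a b c : U) : Fml U := ex fun x => and (isOPair x a b) (app S x c)

/-- `l' = l ∪ {l}` -/
def isSucc (l' l : U) : Fml U := all fun x => iff (mem x l') (or (mem x l) (eq x l))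

/-- `g` is (on `W`) a function with values in `W` -/
def fun1 (W g : U) : Fml U :=
  ball W fun y => bex W fun v => and (app g y v) (all fun v' => imp (app g y v') (eq v' v))

/-- `S` is (on `A × B`) a function with values in `W` -/
def fun2 (A B W S : U) : Fml U :=
  ball A fun a => ball B fun b => bex W fun c =>
    and (app3 S a b c) (all fun c' => imp (app3 S a b c') (eq c' c))

end Fml

open Fml

namespace ST

variable {M : Type u} [SetStr M] [ZFC M]

@[simp] theorem holds_app3 {S a b c : M} :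
    Holds (EE M) (app3 S a b c) ↔ opair (opair a b) c ∈ S := by
  unfold app3
  simp only [holds_ex, holds_and, holds_opair, holds_app]
  constructor
  · rintro ⟨x, rfl, h⟩
    exact h
  · intro h
    exact ⟨_, rfl, h⟩

theorem holds_isSucc {l' l : M} : Holds (EE M) (isSucc l' l) ↔ l' = succ l := by
  unfold isSucc
  simp only [holds_all, holds_iff, holds_mem, mem_def, holds_or, holds_eq]
  rw [ext_iff]
  simp only [mem_succ]

end ST

namespace R

open V Q

section

variable {P : Type} [Preorder P]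

theorem rl_app3 {r : Name P → Name P → Prop} (hr : ∀ x, r x x) {S S' a a' b b' c c' : Name P}
    (h : r S S') (ha : r a a') (hb : r b b') (hc : r c c') :
    Fml.Rel r (app3 S a b c) (app3 S' a' b' c') :=
  DF.rel hr (cv (app3 0 1 2 3) 4) 4 (env [S, a, b] c) (env [S', a', b'] c')
    (rel_env (.cons h (.cons ha (.cons hb .nil))) hc)

theorem app3_congr {p : P} {S a b c a' b' c' : Name P} (ha : feq a a' p) (hb : feq b b' p)
    (hc : feq c c' p) (h : Fc p (app3 S a b c)) : Fc p (app3 S a' b' c') :=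
  (fc_congr (rl_app3 (fun x => feq_refl x p) (feq_refl S p) ha hb hc) le_rfl).1 h

theorem app4_congr {p : P} {S a b c d a' b' c' d' : Name P} (ha : feq a a' p) (hb : feq b b' p)
    (hc : feq c c' p) (hd : feq d d' p) (h : Fc p (app4 S a b c d)) : Fc p (app4 S a' b' c' d') :=
  (fc_congr (rl_app4 (fun x => feq_refl x p) (feq_refl S p) ha hb hc hd) le_rfl).1 h

/-- the name of a set of triples -/
noncomputable def mk3 (ι : Type) (a b c : ι → Name P) (Q : ι → P → Prop) : Name P :=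
  mkFn ι (fun i => mkOPair (a i) (b i)) c Q

theorem fc_app3 {ι : Type} {a b c : ι → Name P} {Q : ι → P → Prop} (hQ : Down Q) {x y z : Name P}
    {p : P} : Fc p (app3 (mk3 ι a b c Q) x y z) ↔ Loc p fun r => ∃ i, Q i r ∧ feq x (a i) r ∧
      feq y (b i) r ∧ feq z (c i) r := by
  rw [app3, Fc, forces_ex]
  constructor
  · intro h
    refine h.bind ?_
    rintro q _ ⟨w, h1, h2⟩
    refine ((fc_app hQ).1 h2).imp ?_
    rintro r hr ⟨i, h3, h4, h5⟩
    have h6 := opair_inj (feq_trans (feq_symm (feq_mono hr (fc_opair_iff.1 h1))) h4)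
    exact ⟨i, h3, h6.1, h6.2, h5⟩
  · intro h
    refine h.imp ?_
    rintro r _ ⟨i, h3, h4, h5, h6⟩
    refine ⟨mkOPair (a i) (b i), fc_opair_iff.2 (feq_symm (feq_opair_congr h4 h5)), ?_⟩
    exact (fc_app hQ).2 (Loc.pure fun s hs => ⟨i, hQ _ _ _ hs h3, feq_refl _ _, feq_mono hs h6⟩)

/-- the name of a set of quadruples -/
noncomputable def mk4 (ι : Type) (a b c d : ι → Name P) (Q : ι → P → Prop) : Name P :=
  mkFn ι (fun i => mkOPair (a i) (b i)) (fun i => mkOPair (c i) (d i)) Q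

theorem fc_app4 {ι : Type} {a b c d : ι → Name P} {Q : ι → P → Prop} (hQ : Down Q)
    {x y z w : Name P} {p : P} : Fc p (app4 (mk4 ι a b c d Q) x y z w) ↔ Loc p fun r => ∃ i,
      Q i r ∧ feq x (a i) r ∧ feq y (b i) r ∧ feq z (c i) r ∧ feq w (d i) r := by
  rw [app4, Fc, forces_ex]
  constructor
  · intro h
    refine h.bind ?_
    rintro q _ ⟨s, h1⟩
    refine (forces_ex.1 h1).bind ?_
    rintro q' hq' ⟨t, h1, h2, h3⟩
    refine ((fc_app hQ).1 h3).imp ?_
    rintro r hr ⟨i, h4, h5, h6⟩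
    have h7 := opair_inj (feq_trans (feq_symm (feq_mono hr (fc_opair_iff.1 h1))) h5)
    have h8 := opair_inj (feq_trans (feq_symm (feq_mono hr (fc_opair_iff.1 h2))) h6)
    exact ⟨i, h4, h7.1, h7.2, h8.1, h8.2⟩
  · intro h
    refine h.imp ?_
    rintro r _ ⟨i, h3, h4, h5, h6, h7⟩
    refine ⟨mkOPair (a i) (b i), forces_ex.2 (Loc.pure fun s hs => ⟨mkOPair (c i) (d i), ?_, ?_, ?_⟩)⟩
    · exact fc_opair_iff.2 (feq_symm (feq_mono hs (feq_opair_congr h4 h5)))
    · exact fc_opair_iff.2 (feq_symm (feq_mono hs (feq_opair_congr h6 h7)))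
    · exact (fc_app hQ).2 (Loc.pure fun t ht => ⟨i, hQ _ _ _ (ht.trans hs) h3, feq_refl _ _,
        feq_refl _ _⟩)

/-! ### Functions given by unique existence -/

/-- what `fun1` gives -/
theorem fun1_spec {W g : Name P} {p : P} (h : Fc p (fun1 W g)) {y : Name P} (hy : fmem y W p) :
    Loc p fun r => ∃ v, fmem v W r ∧ Fc r (app g y v) ∧
      ∀ v' s, s ≤ r → Fc s (app g y v') → feq v' v s := by
  refine (forces_bex.1 ((forces_ball nf_basic).1 h y p le_rfl hy)).imp ?_
  rintro r _ ⟨v, h1, h2, h3⟩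
  exact ⟨v, h1, h2, fun v' s hs hv' => (forces_imp nf_basic).1 (h3 v') s hs hv'⟩

theorem fun1_single {W g : Name P} {p : P} (h : Fc p (fun1 W g)) {y v v' : Name P}
    (hy : fmem y W p) (hv : Fc p (app g y v)) (hv' : Fc p (app g y v')) : feq v v' p := by
  refine feq_dense ((fun1_spec h hy).imp ?_)
  rintro r hr ⟨w, _, _, h3⟩
  exact feq_trans (h3 v r le_rfl (Forces.mono nf_basic hr hv))
    (feq_symm (h3 v' r le_rfl (Forces.mono nf_basic hr hv')))

theorem fun1_nat {g : Name P} {p : P} (h : Fc p (fun1 (oall P ℕ) g)) (y : ℕ) :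
    Loc p fun r => ∃ v : ℕ, Fc r (app g (onm P y) (onm P v)) := by
  refine (fun1_spec h (onm_mem_oall y p)).bind ?_
  rintro r _ ⟨v, hv, h1, _⟩
  refine (fmem_oall.1 hv).imp ?_
  rintro s hs ⟨n, hn⟩
  exact ⟨n, app_congr' (feq_refl _ _) hn (Forces.mono nf_basic hs h1)⟩

theorem fun2_spec {A B W S : Name P} {p : P} (h : Fc p (fun2 A B W S)) {a b : Name P}
    (ha : fmem a A p) (hb : fmem b B p) :
    Loc p fun r => ∃ v, fmem v W r ∧ Fc r (app3 S a b v) ∧
      ∀ v' s, s ≤ r → Fc s (app3 S a b v') → feq v' v s := by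
  have h1 := (forces_ball nf_basic).1 ((forces_ball nf_basic).1 h a p le_rfl ha) b p le_rfl hb
  refine (forces_bex.1 h1).imp ?_
  rintro r _ ⟨v, h1, h2, h3⟩
  exact ⟨v, h1, h2, fun v' s hs hv' => (forces_imp nf_basic).1 (h3 v') s hs hv'⟩

theorem fun2_single {A B W S : Name P} {p : P} (h : Fc p (fun2 A B W S)) {a b v v' : Name P}
    (ha : fmem a A p) (hb : fmem b B p) (hv : Fc p (app3 S a b v)) (hv' : Fc p (app3 S a b v')) :
    feq v v' p := by
  refine feq_dense ((fun2_spec h ha hb).imp ?_)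
  rintro r hr ⟨w, _, _, h3⟩
  exact feq_trans (h3 v r le_rfl (Forces.mono nf_basic hr hv))
    (feq_symm (h3 v' r le_rfl (Forces.mono nf_basic hr hv')))

theorem fun2_nat {A B S : Name P} {p : P} (h : Fc p (fun2 A B (oall P ℕ) S)) {a b : Name P}
    (ha : fmem a A p) (hb : fmem b B p) :
    Loc p fun r => ∃ v : ℕ, Fc r (app3 S a b (onm P v)) := by
  refine (fun2_spec h ha hb).bind ?_
  rintro r _ ⟨v, hv, h1, _⟩
  refine (fmem_oall.1 hv).imp ?_
  rintro s hs ⟨n, hn⟩
  exact ⟨n, app3_congr (feq_refl _ _) (feq_refl _ _) hn (Forces.mono nf_basic hs h1)⟩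

theorem fc_isSucc (n : ℕ) (p : P) : Fc p (isSucc (onm P (n + 1)) (onm P n)) := by
  intro x
  refine (forces_iff nf_basic).2 fun q hq => ?_
  rw [forces_mem, show (NF P).mem q x (onm P (n + 1)) = fmem x (onm P (n + 1)) q from rfl, fmem_onm,
    forces_or]
  constructor
  · intro h
    refine h.imp ?_
    rintro r _ ⟨m, hm, he⟩
    rcases Nat.lt_succ_iff_lt_or_eq.1 hm with h1 | h1
    · exact Or.inl (fmem_congr_left (feq_symm he) (onm_mem h1 r))
    · subst h1
      exact Or.inr he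
  · intro h
    refine h.bind ?_
    rintro r _ (h1 | h1)
    · refine (fmem_onm.1 h1).imp ?_
      rintro s _ ⟨m, hm, he⟩
      exact ⟨m, hm.trans (Nat.lt_succ_self n), he⟩
    · exact Loc.pure fun s hs => ⟨n, Nat.lt_succ_self n, feq_mono hs h1⟩

/-- `fun1` for names given by values on the natural numbers -/
theorem fc_fun1 {Q : ℕ × ℕ → P → Prop} (hQ : Down Q) {p : P}
    (h1 : ∀ y, Loc p fun r => ∃ v, Q (y, v) r)
    (h2 : ∀ q, q ≤ p → ∀ y v v', Q (y, v) q → Q (y, v') q → v = v') :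
    Fc p (fun1 (oall P ℕ) (mkFn (ℕ × ℕ) (fun z => onm P z.1) (fun z => onm P z.2) Q)) := by
  refine (fc_ball_oall ?_).2 fun y => ?_
  · intro p x y h
    exact DF.rel (fun z => feq_refl z p) (cv (bex 0 fun v => and (app 1 2 v)
      (all fun v' => imp (app 1 2 v') (eq v' v))) 3) 3
      (env [oall P ℕ, mkFn (ℕ × ℕ) (fun z => onm P z.1) (fun z => onm P z.2) Q] x)
      (env [oall P ℕ, mkFn (ℕ × ℕ) (fun z => onm P z.1) (fun z => onm P z.2) Q] y)
      (rel_env (r := fun x y => feq x y p) (.cons (feq_refl _ _) (.cons (feq_refl _ _) .nil)) h)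
  · refine forces_bex.2 ?_
    refine (h1 y).imp ?_
    rintro r hr ⟨v, hv⟩
    refine ⟨onm P v, onm_mem_oall v r, ?_, fun v' => ?_⟩
    · exact (fc_app hQ).2 (Loc.pure fun s hs => ⟨(y, v), hQ _ _ _ hs hv, feq_refl _ _,
        feq_refl _ _⟩)
    · refine (forces_imp nf_basic).2 fun q hq h => ?_
      refine feq_dense (((fc_app hQ).1 h).imp ?_)
      rintro s hs ⟨⟨y', v''⟩, h3, h4, h5⟩
      obtain rfl := onm_inj h4
      rw [h2 s (hs.trans (hq.trans hr)) y v v'' (hQ _ _ _ (hs.trans hq) hv) h3]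
      exact h5

end

end R

end Pool.Agent.Lib_helper27
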