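import Pool.Agent.Lib_helper27.R.Meas
import Pool.Agent.Lib_helper44.RB.C3

/-!
# Positive strings, and the system `MeasSys` in the extension
-/

set_option linter.unusedSectionVars false
set_option linter.unusedVariables false

namespace Pool.Agent.Lib_helper27.R

open Fml V Q Pool.Agent.Lib_helper27.ST Cardinal

section

variable {Lab : Type} {E : Nms Om1 Om2 Lab}

theorem feq_nil {P : Type} [Preorder P] (p : P) : feq (strN P []) (onm P (0 : ℕ)) p := by
  refine feq_ext fun z q hq => ?_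
  constructor
  · intro hz
    obtain ⟨r, _, x, hx, _⟩ := (fmem_snm'.1 hz).exists
    have hx' : ([] : List Bool)[x.1]? = some x.2 := hx
    simp at hx'
  · intro hz
    obtain ⟨r, _, n, hn, _⟩ := (fmem_onm.1 hz).exists
    exact absurd hn (Nat.not_lt_zero n)

theorem down_POS (dec : List Bool → Pc E → Prop) (m : List Bool → Finset (List Bool) → ℝ) :
    Down (P := Pc E) (POS dec m) := by
  rintro t p q hq ⟨ε, hε, h⟩
  exact ⟨ε, hε, fun r' hr' => h r' (hr'.trans hq)⟩

theorem forces_pos [Nonempty Lab] (p : Pc E) : Fc p (fPos (oall (Pc E) ℕ) (twoN (Pc E))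
    (oall (Pc E) Om1) (CN E) (GN (Pc E)) (onm (Pc E) (1 : ℕ)) (onm (Pc E) (0 : ℕ))) := by
  intro S
  refine (forces_imp nf_basic).2 fun q hq hS => ?_
  obtain ⟨m, hm1, hm2, hm3, hm4⟩ := exists_meas
  let dec : List Bool → Pc E → Prop := fun s r => fmem (strN _ s) S r
  have hdec : ∀ s r r', r' ≤ r → dec s r → dec s r' := fun s r r' hr h => fmem_mono hr h
  have hPN := down_POS dec m
  refine forces_ex.2 (Loc.pure fun q1 hq1 => ?_)
  obtain ⟨x, hx⟩ := Pool.Agent.Lib_helper44.RB.pos_core_pr dec hdec m hm3 hm4 q1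
  refine ⟨mkQ (List Bool) (strN (Pc E)) (POS dec m), ?_, ?_, ?_, ?_⟩
  · refine (forces_ball nf_basic).2 fun t r hr ht => ?_
    refine fc_isStr.2 (((fmem_mkQ hPN).1 ht).imp ?_)
    rintro s _ ⟨t', _, h⟩
    exact ⟨t', h⟩
  · refine fmem_congr_left (feq_nil q1) (fmem_mkQ_of (x := strN (Pc E)) hPN ?_)
    refine ⟨1 / 2, by norm_num, fun r hr T hT => hm1 T ?_⟩
    have h1 := sum_bound (Forces.mono nf_basic (hr.trans hq1) hS) T hT
    refine h1.trans ?_
    norm_num
  · refine (forces_ball nf_basic).2 fun t r hr ht => ?_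
    refine (forces_ball nf_basic).2 fun s r1 hr1 hs => ?_
    intro r2 hr2 hsub
    have h1 := (fc_isStr.1 ((forces_ball nf_basic).1 hS.1 s r1 (hr1.trans (hr.trans hq1)) hs))
    obtain ⟨r3, hr3, s', hs'⟩ := (h1.mono hr2).exists
    obtain ⟨r4, hr4, t', ht', htt'⟩ := (((fmem_mkQ hPN).1 ht).mono
      (hr3.trans (hr2.trans hr1))).exists
    have h2 : s' <+: t' := strN_sub.1 (isSubset_congr (feq_mono hr4 hs') htt'
      (Forces.mono nf_basic (hr4.trans hr3) hsub))
    obtain ⟨ε, hε, h3⟩ := ht'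
    have h4 := h3 r4 le_rfl {s'} (by
      intro s'' hs''
      rw [Finset.mem_singleton] at hs''
      subst hs''
      exact fmem_congr_left (feq_mono hr4 hs') (fmem_mono (hr4.trans (hr3.trans hr2)) hs))
    have h5 := hm2 t' {s'} s' (Finset.mem_singleton_self _) h2
    linarith
  · refine forces_bex.2 (Loc.pure fun q2 hq2 => ⟨onm (Pc E) x, onm_mem_oall x q2, ?_⟩)
    refine (forces_ball nf_basic).2 fun t r hr ht => ?_
    refine (forces_ball nf_basic).2 fun k r1 hr1 hk => ?_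
    refine forces_bex.2 ?_
    refine (((fmem_mkQ hPN).1 ht).mono hr1).bind ?_
    rintro r2 hr2 ⟨t', ht', htt'⟩
    refine (fmem_oall.1 (fmem_mono hr2 hk)).bind ?_
    rintro r3 hr3 ⟨k', hk'⟩
    refine (hx t' r3 (hr3.trans (hr2.trans (hr1.trans (hr.trans hq2))))
      (hPN _ _ _ hr3 ht') k').imp ?_
    rintro r4 hr4 ⟨n, hkn, i, t'', h1, h2, h3, h4, h5⟩
    refine ⟨onm (Pc E) n, onm_mem_oall _ _, ?_, ?_⟩
    · intro r5 hr5 hmem
      have := onm_mem_iff.1 (fmem_congr_right (feq_mono (hr5.trans hr4) hk') hmem)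
      omega
    · refine forces_bex.2 (Loc.pure fun r5 hr5 => ⟨strN (Pc E) t'', ?_, ?_, ?_⟩)
      · exact fmem_mkQ_of (x := strN (Pc E)) hPN (hPN _ _ _ hr5 h5)
      · exact isSubset_congr (feq_symm (feq_mono (hr5.trans (hr4.trans hr3)) htt'))
          (feq_refl _ _) (strN_sub.2 h1)
      · refine forces_ex.2 (Loc.pure fun r6 hr6 => ⟨onm (Pc E) i, ?_, fc_GN h2 h3 r6⟩)
        exact fc_CN (c_mono (hr6.trans hr5) h4)

end

section

variable {P : Type} [Preorder P] [Nonempty P]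

theorem lk_env6 (φ : DF) (a b c d f g : Name P) :
    Lk (φ.to 6 (env [π a, π b, π c, π d, π f] (π g))) (φ.to 6 (env [a, b, c, d, f] g)) := by
  have h : (fun i => π (env [a, b, c, d, f] g i)) = env [π a, π b, π c, π d, π f] (π g) := by
    funext i
    rcases i with _ | _ | _ | _ | _ | i <;> rfl
  rw [← h]
  exact DF.lk φ 6 _

theorem lk_env7 (φ : DF) (a b c d f g h : Name P) :
    Lk (φ.to 7 (env [π a, π b, π c, π d, π f, π g] (π h))) (φ.to 7 (env [a, b, c, d, f, g] h)) := by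
  have e : (fun i => π (env [a, b, c, d, f, g] h i)) =
      env [π a, π b, π c, π d, π f, π g] (π h) := by
    funext i
    rcases i with _ | _ | _ | _ | _ | _ | i <;> rfl
  rw [← e]
  exact DF.lk φ 7 _

theorem two_eq : (π (twoN P) : Ext P) = two := by
  have h : Holds (EE (Ext P)) (isTwo (π (twoN P))) :=
    (los (lk_env1 (cv (isTwo 0) 1) (twoN P))).2 (T_of_forces isTwo_name)
  exact holds_isTwo.1 h

theorem one_eq : (π (onm P (1 : ℕ)) : Ext P) = one := by
  have h1 : Holds (EE (Ext P)) (isUPair (π (onm P (1 : ℕ))) (π (onm P (0 : ℕ)))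
      (π (onm P (0 : ℕ)))) := by
    refine (los (Lk.isUPair _ _ _)).2 (T_of_forces fun p => ?_)
    refine fc_upair_iff.2 (feq_ext fun z q hq => ?_)
    rw [fmem_single, fmem_onm]
    constructor
    · intro h
      refine feq_dense (h.imp ?_)
      rintro r _ ⟨n, hn, he⟩
      obtain rfl : n = 0 := by omega
      exact he
    · intro h
      exact Loc.pure fun r hr => ⟨0, Nat.zero_lt_one, feq_mono hr h⟩
  rw [zero_eq] at h1
  rw [one]
  refine ST.ext fun z => ?_
  have h2 := h1 z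
  rw [holds_iff, holds_or, holds_eq] at h2
  rw [mem_upair]
  exact h2

theorem measSys_of {K C G : Name P} (h1 : ∀ p : P, Fc p (fun2 K (oall P ℕ) (oall P ℕ) C))
    (h2 : ∀ p : P, Fc p (fStr (oall P ℕ) (twoN P) G))
    (h3 : ∀ p : P, Fc p (fNull (oall P ℕ) (twoN P) K C G))
    (h4 : ∀ p : P, Fc p (fPos (oall P ℕ) (twoN P) K C G (onm P (1 : ℕ)) (onm P (0 : ℕ)))) :
    MeasSys (π K : Ext P) (π C) (π G) := by
  have k1 : Holds (EE (Ext P)) (fun2 (π K) (π (oall P ℕ)) (π (oall P ℕ)) (π C)) :=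
    (los (lk_env3 (cv (fun2 1 0 0 2) 3) (oall P ℕ) K C)).2 (T_of_forces h1)
  have k2 : Holds (EE (Ext P)) (fStr (π (oall P ℕ)) (π (twoN P)) (π G)) :=
    (los (lk_env3 (cv (fStr 0 1 2) 3) (oall P ℕ) (twoN P) G)).2 (T_of_forces h2)
  have k3 : Holds (EE (Ext P)) (fNull (π (oall P ℕ)) (π (twoN P)) (π K) (π C) (π G)) :=
    (los (lk_env5 (cv (fNull 0 1 2 3 4) 5) (oall P ℕ) (twoN P) K C G)).2 (T_of_forces h3)
  have k4 : Holds (EE (Ext P)) (fPos (π (oall P ℕ)) (π (twoN P)) (π K) (π C) (π G)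
      (π (onm P (1 : ℕ))) (π (onm P (0 : ℕ)))) :=
    (los (lk_env7 (cv (fPos 0 1 2 3 4 5 6) 7) (oall P ℕ) (twoN P) K C G (onm P (1 : ℕ))
      (onm P (0 : ℕ)))).2 (T_of_forces h4)
  rw [← omega_eq] at k1 k2 k3 k4
  rw [two_eq] at k2 k3 k4
  rw [one_eq, zero_eq] at k4
  refine ⟨?_, ?_, ?_, ?_⟩
  · exact holds_fun2.1 k1
  · unfold fStr at k2
    simp only [holds_all, holds_imp, holds_app3, holds_bex, mem_def, holds_and, holds_isFunc,
      holds_neg, holds_mem] at k2
    exact k2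
  · unfold fNull at k3
    simp only [holds_ball, mem_def, holds_ex, holds_and, holds_imp, holds_mem, holds_all,
      holds_app3, holds_bex, holds_isSubset] at k3
    intro ξ hξ k hk
    obtain ⟨S, hS, h⟩ := k3 ξ hξ k hk
    exact ⟨S, hS, fun n hn hkn m t h5 h6 => h n hn hkn m t ⟨h5, h6⟩⟩
  · unfold fPos fGen at k4
    simp only [holds_ball, mem_def, holds_ex, holds_and, holds_imp, holds_mem, holds_all,
      holds_app3, holds_bex, holds_isSubset, holds_neg, holds_isFunc] at k4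
    intro S hS
    obtain ⟨Q, h5, h6, h7, ξ, hξ, h8⟩ := k4 S hS
    exact ⟨Q, h5, h6, h7, ξ, hξ, h8⟩

end

end Pool.Agent.Lib_helper27.R
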