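import Pool.Agent.Lib_helper27.R.Defs

/-!
# The finite support iteration of prediction forcing, as one poset
-/

set_option linter.unusedSectionVars false
set_option linter.unusedVariables false

namespace Pool.Agent.Lib_helper27.R

theorem bl_succ (l : ℕ) : bl (l + 1) = bl l + 2 * l := by
  unfold bl
  cases l with
  | zero => rfl
  | succ l => simp only [Nat.add_sub_cancel]; ring

theorem bl_mono {l m : ℕ} (h : l ≤ m) : bl l ≤ bl m :=
  Nat.mul_le_mul h (Nat.sub_le_sub_right h 1)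

/-- The data of a condition at one coordinate: `k` blocks are finished, `s` is a finite piece of the
predictor (`0` means undefined, `v + 1` means that the value is `v`), `F` is the set of the labels
of functions which have to be predicted in all further blocks. -/
@[ext]
structure Cd (Lab : Type) where
  /-- number of finished blocks -/
  k : ℕ
  /-- finite piece of the predictor -/
  s : List ℕ →₀ ℕ
  /-- labels -/
  F : Finset Lab
  hs : ∀ t, s t ≠ 0 → t.length < bl k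
  hF : F.card ≤ k

instance {Lab : Type} : Zero (Cd Lab) := ⟨⟨0, 0, ∅, fun t h => (h rfl).elim, le_rfl⟩⟩

/-- Conditions: `c` is a finite piece of the Cohen reals (`0` means undefined). -/
@[ext]
structure Cnd (Lm Om Lab : Type) where
  /-- Cohen part -/
  c : Lm × ℕ →₀ ℕ
  /-- data at the coordinates -/
  a : Om →₀ Cd Lab

/-- names of the reals -/
abbrev Nms (Lm Om Lab : Type) : Type := Lab → ℕ → ℕ → Cnd Lm Om Lab × ℕ

section

variable {Lm Om Lab : Type}

/-- the Cohen part is extended -/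
def ExtC (q p : Cnd Lm Om Lab) : Prop := ∀ x, p.c x ≠ 0 → q.c x = p.c x

/-- `r` decides that the value of the `e`-th name at `i` is `v`, with respect to the relation `R` -/
def DecV (E : Nms Lm Om Lab) (R : Cnd Lm Om Lab → Cnd Lm Om Lab → Prop) (e : Lab)
    (r : Cnd Lm Om Lab) (i v : ℕ) : Prop :=
  (∃ b, R r (E e i b).1 ∧ (E e i b).2 = v ∧ ∀ b' < b, ∀ t, R t r → ¬ R t (E e i b').1) ∨
    (v = 0 ∧ ∀ b t, R t r → ¬ R t (E e i b).1)

/-- what has to be true at the coordinate `η`, if `R` is the order of the conditions below `η` -/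
def Good' (E : Nms Lm Om Lab) (η : Om) (R : Cnd Lm Om Lab → Cnd Lm Om Lab → Prop)
    (q p : Cnd Lm Om Lab) : Prop :=
  (p.a η).k ≤ (q.a η).k ∧ (∀ t, (p.a η).s t ≠ 0 → (q.a η).s t = (p.a η).s t) ∧
    (p.a η).F ⊆ (q.a η).F ∧
    ∀ e ∈ (p.a η).F, ∀ l, (p.a η).k ≤ l → l < (q.a η).k → ∀ t, R t q → ∃ r, R r t ∧
      ∃ u : ℕ → ℕ, (∀ i < bl (l + 1), DecV E R e r i (u i)) ∧
        ∃ n, bl l ≤ n ∧ n < bl (l + 1) ∧ (q.a η).s (hist u n) = u n + 1

variable [LinearOrder Om] [WellFoundedLT Om]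

/-- the requirement at the coordinate `η` -/
noncomputable def GD (E : Nms Lm Om Lab) : Om → Cnd Lm Om Lab → Cnd Lm Om Lab → Prop :=
  (wellFounded_lt (α := Om)).fix fun η ih =>
    Good' E η fun q p => ExtC q p ∧ ∀ ζ (h : ζ < η), ih ζ h q p

/-- the order of the conditions restricted to the coordinates below `ξ` -/
def LE (E : Nms Lm Om Lab) (ξ : WithTop Om) (q p : Cnd Lm Om Lab) : Prop :=
  ExtC q p ∧ ∀ ζ : Om, (ζ : WithTop Om) < ξ → GD E ζ q p

variable {E : Nms Lm Om Lab}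

theorem gd_eq (η : Om) : GD E η = Good' E η (LE E η) := by
  have h : LE E (η : WithTop Om) = fun q p => ExtC q p ∧ ∀ ζ, ζ < η → GD E ζ q p := by
    funext q p
    simp [LE, WithTop.coe_lt_coe]
  rw [h, GD, WellFounded.fix_eq]

theorem extC_refl (q : Cnd Lm Om Lab) : ExtC q q := fun _ _ => rfl

theorem ExtC.trans {r q p : Cnd Lm Om Lab} (h : ExtC r q) (h' : ExtC q p) : ExtC r p := by
  intro x hx
  have h1 := h' x hx
  rw [h x (by rw [h1]; exact hx), h1]

theorem good_same {η : Om} {R : Cnd Lm Om Lab → Cnd Lm Om Lab → Prop} {q p : Cnd Lm Om Lab}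
    (h : q.a η = p.a η) : Good' E η R q p := by
  rw [Good', h]
  exact ⟨le_rfl, fun _ _ => rfl, subset_rfl, fun e _ l h1 h2 => absurd h1 (not_le.2 h2)⟩

theorem good_zero {η : Om} {R : Cnd Lm Om Lab → Cnd Lm Om Lab → Prop} {q p : Cnd Lm Om Lab}
    (h : p.a η = 0) : Good' E η R q p := by
  rw [Good', h]
  exact ⟨Nat.zero_le _, fun t ht => (ht rfl).elim, Finset.empty_subset _,
    fun e he => absurd he (Finset.notMem_empty e)⟩

theorem gd_same {η : Om} {q p : Cnd Lm Om Lab} (h : q.a η = p.a η) : GD E η q p := by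
  rw [gd_eq]
  exact good_same h

theorem gd_zero {η : Om} {q p : Cnd Lm Om Lab} (h : p.a η = 0) : GD E η q p := by
  rw [gd_eq]
  exact good_zero h

theorem LE.of_agree {ξ : WithTop Om} {q p : Cnd Lm Om Lab} (hc : ExtC q p)
    (h : ∀ ζ : Om, (ζ : WithTop Om) < ξ → q.a ζ = p.a ζ) : LE E ξ q p :=
  ⟨hc, fun ζ hζ => gd_same (h ζ hζ)⟩

theorem LE.refl (ξ : WithTop Om) (q : Cnd Lm Om Lab) : LE E ξ q q :=
  LE.of_agree (extC_refl q) fun _ _ => rfl

theorem LE.mono {ξ ξ' : WithTop Om} {q p : Cnd Lm Om Lab} (h : LE E ξ q p) (hξ : ξ' ≤ ξ) :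
    LE E ξ' q p := ⟨h.1, fun ζ hζ => h.2 ζ (hζ.trans_le hξ)⟩

theorem LE.trans {ξ : WithTop Om} {r q p : Cnd Lm Om Lab} (h : LE E ξ r q) (h' : LE E ξ q p) :
    LE E ξ r p := by
  induction ξ using WellFoundedLT.induction generalizing r q p with
  | ind ξ ih =>
    refine ⟨h.1.trans h'.1, fun ζ hζ => ?_⟩
    have h1 := h.2 ζ hζ
    have h2 := h'.2 ζ hζ
    rw [gd_eq] at h1 h2 ⊢
    obtain ⟨a1, a2, a3, a4⟩ := h1
    obtain ⟨b1, b2, b3, b4⟩ := h2
    refine ⟨b1.trans a1, ?_, b3.trans a3, ?_⟩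
    · intro t ht
      have h3 := b2 t ht
      rw [a2 t (by rw [h3]; exact ht), h3]
    · intro e he l hl1 hl2 t ht
      by_cases hl : l < (q.a ζ).k
      · obtain ⟨r', hr', u, hu, n, hn1, hn2, hn3⟩ := b4 e he l hl1 hl t
          (ih ζ hζ ht (h.mono hζ.le))
        refine ⟨r', hr', u, hu, n, hn1, hn2, ?_⟩
        rw [a2 _ (by rw [hn3]; exact Nat.succ_ne_zero _), hn3]
      · exact a4 e (b3 he) l (not_lt.1 hl) hl2 t ht

/-! ### Pieces -/

open Classical in
/-- `q` below `η`, and `p` from `η` on -/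
noncomputable def piece (η : Om) (q p : Cnd Lm Om Lab) : Cnd Lm Om Lab where
  c := q.c
  a := Finsupp.onFinset (q.a.support ∪ p.a.support) (fun ζ => if ζ < η then q.a ζ else p.a ζ) (by
    intro ζ hζ
    rw [Finset.mem_union, Finsupp.mem_support_iff, Finsupp.mem_support_iff]
    by_contra hcon
    push Not at hcon
    rw [hcon.1, hcon.2] at hζ
    simp at hζ)

theorem piece_lt {η ζ : Om} (h : ζ < η) (q p : Cnd Lm Om Lab) : (piece η q p).a ζ = q.a ζ := by
  rw [piece, Finsupp.onFinset_apply, if_pos h]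

theorem piece_ge {η ζ : Om} (h : η ≤ ζ) (q p : Cnd Lm Om Lab) : (piece η q p).a ζ = p.a ζ := by
  rw [piece, Finsupp.onFinset_apply, if_neg (not_lt.2 h)]

theorem piece_eq {η : Om} (q p : Cnd Lm Om Lab) : LE E η (piece η q p) q :=
  LE.of_agree (fun _ _ => rfl) fun ζ hζ => piece_lt (WithTop.coe_lt_coe.1 hζ) q p

theorem piece_eq' {η : Om} (q p : Cnd Lm Om Lab) : LE E η q (piece η q p) :=
  LE.of_agree (fun _ _ => rfl) fun ζ hζ => (piece_lt (WithTop.coe_lt_coe.1 hζ) q p).symm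

/-- grafting -/
theorem piece_le {η : Om} {q p : Cnd Lm Om Lab} (h : LE E η q p) (ξ : WithTop Om) :
    LE E ξ (piece η q p) p := by
  refine ⟨h.1, fun ζ _ => ?_⟩
  by_cases hζη : ζ < η
  · have h1 := (piece_eq (E := E) (η := η) q p).trans h
    exact h1.2 ζ (WithTop.coe_lt_coe.2 hζη)
  · exact gd_same (piece_ge (not_lt.1 hζη) q p)

/-- all data are below `η` -/
def Below (η : WithTop Om) (p : Cnd Lm Om Lab) : Prop := ∀ ζ : Om, η ≤ ζ → p.a ζ = 0

theorem Below.le_iff {η ξ : WithTop Om} {t s : Cnd Lm Om Lab} (hs : Below η s) (hξ : η ≤ ξ) :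
    LE E ξ t s ↔ LE E η t s := by
  refine ⟨fun h => h.mono hξ, fun h => ⟨h.1, fun ζ _ => ?_⟩⟩
  rcases lt_or_ge (ζ : WithTop Om) η with hζ | hζ
  · exact h.2 ζ hζ
  · exact gd_zero (hs ζ hζ)

theorem Below.compat {η ξ : WithTop Om} {r s t : Cnd Lm Om Lab} (hs : Below η s) (hξ : η ≤ ξ)
    (h1 : LE E η t r) (h2 : LE E η t s) : ∃ t', LE E ξ t' r ∧ LE E ξ t' s ∧ LE E η t' t := by
  induction η using WithTop.recTopCoe with
  | top =>
    rw [top_le_iff] at hξ
    subst hξ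
    exact ⟨t, h1, h2, LE.refl _ _⟩
  | coe η =>
    exact ⟨piece η t r, piece_le h1 ξ, (hs.le_iff hξ).2 ((piece_eq t r).trans h2), piece_eq t r⟩

/-! ### Decisions -/

section dec

variable {ξ : WithTop Om} {e : Lab} {r t : Cnd Lm Om Lab} {i v : ℕ}

theorem DecV.mono (h : DecV E (LE E ξ) e r i v) (ht : LE E ξ t r) : DecV E (LE E ξ) e t i v := by
  rcases h with ⟨b, h1, h2, h3⟩ | ⟨h1, h2⟩
  · exact Or.inl ⟨b, ht.trans h1, h2, fun b' hb' t' ht' => h3 b' hb' t' (ht'.trans ht)⟩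
  · exact Or.inr ⟨h1, fun b t' ht' => h2 b t' (ht'.trans ht)⟩

theorem DecV.unique {v' : ℕ} (h : DecV E (LE E ξ) e r i v) (h' : DecV E (LE E ξ) e r i v') :
    v = v' := by
  rcases h with ⟨b, h1, h2, h3⟩ | ⟨h1, h2⟩ <;> rcases h' with ⟨b', h1', h2', h3'⟩ | ⟨h1', h2'⟩
  · rcases lt_trichotomy b b' with hlt | rfl | hgt
    · exact (h3' b hlt r (LE.refl _ _) h1).elim
    · exact h2.symm.trans h2'
    · exact (h3 b' hgt r (LE.refl _ _) h1').elim
  · exact (h2' b r (LE.refl _ _) h1).elim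
  · exact (h2 b' r (LE.refl _ _) h1').elim
  · rw [h1, h1']

theorem exists_decV (e : Lab) (r : Cnd Lm Om Lab) (i : ℕ) :
    ∃ t, LE E ξ t r ∧ ∃ v, DecV E (LE E ξ) e t i v := by
  classical
  by_cases h : ∃ b t, LE E ξ t r ∧ LE E ξ t (E e i b).1
  · obtain ⟨t, h1, h2⟩ := Nat.find_spec h
    refine ⟨t, h1, (E e i (Nat.find h)).2, Or.inl ⟨Nat.find h, h2, rfl, ?_⟩⟩
    intro b' hb' t' ht' h3
    exact Nat.find_min h hb' ⟨t', ht'.trans h1, h3⟩
  · push Not at h
    exact ⟨r, LE.refl _ _, 0, Or.inr ⟨rfl, h⟩⟩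

theorem exists_dec (e : Lab) (r : Cnd Lm Om Lab) (n : ℕ) :
    ∃ t, LE E ξ t r ∧ ∃ u : ℕ → ℕ, ∀ i < n, DecV E (LE E ξ) e t i (u i) := by
  induction n with
  | zero => exact ⟨r, LE.refl _ _, fun _ => 0, fun i hi => absurd hi (Nat.not_lt_zero i)⟩
  | succ n ih =>
    obtain ⟨t, ht, u, hu⟩ := ih
    obtain ⟨t', ht', v, hv⟩ := exists_decV (ξ := ξ) (E := E) e t n
    refine ⟨t', ht'.trans ht, fun i => if i < n then u i else v, fun i hi => ?_⟩
    by_cases hin : i < n
    · simp only [hin, if_true]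
      exact (hu i hin).mono ht'
    · obtain rfl : i = n := by omega
      simpa using hv

theorem exists_dec_many (D : Finset Lab) (r : Cnd Lm Om Lab) (n : ℕ) :
    ∃ t, LE E ξ t r ∧ ∃ u : Lab → ℕ → ℕ, ∀ e ∈ D, ∀ i < n, DecV E (LE E ξ) e t i (u e i) := by
  classical
  induction D using Finset.induction_on with
  | empty => exact ⟨r, LE.refl _ _, fun _ _ => 0, fun e he => absurd he (Finset.notMem_empty e)⟩
  | insert e D _ ih =>
    obtain ⟨t, ht, u, hu⟩ := ih
    obtain ⟨t', ht', u', hu'⟩ := exists_dec (ξ := ξ) (E := E) e t n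
    refine ⟨t', ht'.trans ht, fun e' => if e' = e then u' else u e', fun e' he' i hi => ?_⟩
    by_cases h : e' = e
    · subst h
      simpa using hu' i hi
    · simp only [h, if_false]
      exact (hu e' ((Finset.mem_insert.1 he').resolve_left h) i hi).mono ht'

theorem decV_iff {η : WithTop Om} (hE : ∀ b, Below η (E e i b).1) (hξ : η ≤ ξ) :
    DecV E (LE E ξ) e r i v ↔ DecV E (LE E η) e r i v := by
  have key : ∀ b, (∀ t, LE E ξ t r → ¬ LE E ξ t (E e i b).1) ↔
      ∀ t, LE E η t r → ¬ LE E η t (E e i b).1 := by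
    intro b
    constructor
    · intro h t h1 h2
      obtain ⟨t', h3, h4, _⟩ := (hE b).compat hξ h1 h2
      exact h t' h3 h4
    · exact fun h t h1 h2 => h t (h1.mono hξ) (h2.mono hξ)
  unfold DecV
  simp only [key]
  simp only [(hE _).le_iff hξ]

end dec

/-! ### Changing the data at one coordinate -/

open Classical in
/-- replace the Cohen part and the data at `η` -/
noncomputable def setAt (η : Om) (d : Cd Lab) (p : Cnd Lm Om Lab) : Cnd Lm Om Lab where
  c := p.c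
  a := p.a.update η d

theorem setAt_self (η : Om) (d : Cd Lab) (p : Cnd Lm Om Lab) : (setAt η d p).a η = d := by
  simp [setAt]

theorem setAt_ne {η ζ : Om} (h : ζ ≠ η) (d : Cd Lab) (p : Cnd Lm Om Lab) :
    (setAt η d p).a ζ = p.a ζ := by
  simp [setAt, Function.update_of_ne h]

theorem setAt_eq (η : Om) (d : Cd Lab) (p : Cnd Lm Om Lab) : LE E η (setAt η d p) p :=
  LE.of_agree (fun _ _ => rfl) fun ζ hζ => setAt_ne (WithTop.coe_lt_coe.1 hζ).ne d p

theorem setAt_le {η : Om} {d : Cd Lab} {p : Cnd Lm Om Lab} (h : GD E η (setAt η d p) p)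
    (ξ : WithTop Om) : LE E ξ (setAt η d p) p := by
  refine ⟨fun _ _ => rfl, fun ζ _ => ?_⟩
  by_cases hζ : ζ = η
  · subst hζ
    exact h
  · exact gd_same (setAt_ne hζ d p)

/-- replace the Cohen part -/
def setC (c : Lm × ℕ →₀ ℕ) (p : Cnd Lm Om Lab) : Cnd Lm Om Lab := ⟨c, p.a⟩

theorem setC_le {c : Lm × ℕ →₀ ℕ} {p : Cnd Lm Om Lab} (h : ∀ x, p.c x ≠ 0 → c x = p.c x)
    (ξ : WithTop Om) : LE E ξ (setC c p) p := LE.of_agree h fun _ _ => rfl

end

end Pool.Agent.Lib_helper27.R
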