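import Pool.Agent.Lib_helper27.Statement

/-!
# Additivity of measure and of the Rothberger property: the formulas

`W` is `ω`, `N` is `2 = {0, 1}`, `K` is `ω₁`.
-/

namespace Pool.Agent.Lib_helper27.Fml

universe v

variable {U : Type v}

/-- `u` is the union of the set `F` -/
def isUnion (u F : U) : Fml U := all fun x => iff (mem x u) (bex F fun a => mem x a)

/-- `E` is the set of all functions from `L` to `N` -/
def isPow (L N E : U) : Fml U := all fun t => iff (mem t E) (isFunc t L N)

/-- `z = ((s, t), u)` -/
def isTriple (z s t u : U) : Fml U := ex fun y => and (isOPair y s t) (isOPair z y u)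

/-- `D` is the set of all `((s, t), u)` with `s ∈ S`, `t ∈ E`, `s ⊆ t` and `u ∈ V` -/
def isCount (S E V D : U) : Fml U :=
  all fun z => iff (mem z D) (bex S fun s => bex E fun t => bex V fun u =>
    and (isSubset s t) (isTriple z s t u))

/-- `S` is a set of finite sequences of zeros and ones, i.e. of functions from elements of `ω` into
`2`, and `∑_{s ∈ S} 2 ^ (-|s|) ≤ 2 ^ (-k)`: for every `L ∈ ω` the set of all `((s, t), u)` with
`s ∈ S`, `s ⊆ t ∈ 2 ^ L` and `u ∈ 2 ^ k` injects into `2 ^ L` -/
def isSmall (W N k S : U) : Fml U :=
  and (ball S fun s => bex W fun l => isFunc s l N)
    (ball W fun L => all fun E => all fun V => all fun D =>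
      imp (and (isPow L N E) (and (isPow k N V) (isCount S E V D))) (ex fun f => isInj f D E))

/-- `A` is a null set of elements of `2 ^ ω`: for every `k ∈ ω` there is a set `S` of finite
sequences of zeros and ones with `∑_{s ∈ S} 2 ^ (-|s|) ≤ 2 ^ (-k)` such that every element of `A`
extends an element of `S` -/
def isNull (W N A : U) : Fml U :=
  and (ball A fun x => isFunc x W N)
    (ball W fun k => ex fun S => and (isSmall W N k S) (ball A fun x => bex S fun s => isSubset s x))

/-- There is a set `F` of null sets which injects into `K` and whose union is not a null set. -/
def nullPart (W N K : U) : Fml U :=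
  ex fun F => ex fun u => and (ball F fun A => isNull W N A) (and (ex fun f => isInj f F K)
    (and (isUnion u F) (neg (isNull W N u))))

/-- `T` is a topology on `Y` -/
def isTop (Y T : U) : Fml U :=
  and (ball T fun u => isSubset u Y) (and (mem Y T)
    (and (ball T fun u => ball T fun v => bex T fun w => all fun x =>
        iff (mem x w) (and (mem x u) (mem x v)))
      (all fun A => imp (isSubset A T) (bex T fun w => isUnion w A))))

/-- the topology `T` has a countable base -/
def isSecondCountable (W T : U) : Fml U :=
  ex fun B => and (isSubset B T) (and (ex fun f => isInj f B W)
    (ball T fun u => ball u fun x => bex B fun b => and (mem x b) (isSubset b u)))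

/-- `c` is an open cover of `X`: a nonempty subset of `T` whose union contains `X` -/
def isOpenCover (T X c : U) : Fml U :=
  and (ex fun u => mem u c) (and (isSubset c T) (ball X fun x => bex c fun u => mem x u))

/-- `X` has the Rothberger property `S₁(O, O)`: for every function `c` on `ω` whose values are open
covers of `X` there is a function `g` on `ω` such that `g(n) ∈ c(n)` for all `n` and `X` is contained
in the union of the sets `g(n)` -/
def isRothberger (W T X : U) : Fml U :=
  all fun Q => all fun c => imp
    (and (isFunc c W Q) (all fun n => all fun v => imp (app c n v) (isOpenCover T X v)))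
    (ex fun g => and (isFunc g W T)
      (and (all fun n => all fun v => all fun u => imp (and (app c n v) (app g n u)) (mem u v))
        (ball X fun x => bex W fun n => ex fun u => and (app g n u) (mem x u))))

/-- For every second countable topological space `(Y, T)` and every set `F` of subspaces of `Y` with
the Rothberger property which injects into `K`, the union of `F` has the Rothberger property. -/
def rothPart (W K : U) : Fml U :=
  all fun Y => all fun T => imp (and (isTop Y T) (isSecondCountable W T))
    (all fun F => all fun u => imp
      (and (ball F fun X => and (isSubset X Y) (isRothberger W T X))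
        (and (ex fun f => isInj f F K) (isUnion u F)))
      (isRothberger W T u))

/-- `add(N) = ω₁`, but the union of `ω₁` many sets with the Rothberger property (in any second
countable space) has the Rothberger property. -/
def addNltAddRoth : Fml U :=
  ex fun W => ex fun N => ex fun K => and (isOmega W) (and (isTwo N) (and (isHartogs W K)
    (and (nullPart W N K) (rothPart W K))))

end Pool.Agent.Lib_helper27.Fml
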